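import Pool.Agent.W167.ET.Comb

set_option autoImplicit false

/-! Bounded perturbations do not change the boundedness of the representation function; growth of
additive bases. -/

namespace Pool.Agent.W167.ET

open Finset

lemma exists_tuple {h : ℕ} (s : Multiset ℕ) (hs : Multiset.card s = h) :
    ∃ t : Fin h → ℕ, mset t = s := by
  induction s using Quotient.inductionOn with
  | h l =>
    have hl : l.length = h := hs
    subst hl
    refine ⟨l.get, ?_⟩
    unfold mset
    have h1 : Multiset.map l.get (Finset.univ : Finset (Fin l.length)).val =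
        ((List.ofFn l.get : List ℕ) : Multiset ℕ) := by
      rw [Fin.univ_val_map]
    rw [h1, List.ofFn_get]
    rfl

lemma sum_close (ψ : ℕ → ℕ) (w : ℕ) (s : Multiset ℕ)
    (h1 : ∀ v ∈ s, v ≤ ψ v + w ∧ ψ v ≤ v + w) :
    s.sum ≤ (s.map ψ).sum + Multiset.card s * w ∧
      (s.map ψ).sum ≤ s.sum + Multiset.card s * w := by
  induction s using Multiset.induction_on with
  | empty => simp
  | cons v s ih =>
    have h2 := ih fun u hu => h1 u (Multiset.mem_cons_of_mem hu)
    have h3 := h1 v (Multiset.mem_cons_self v s)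
    simp only [Multiset.sum_cons, Multiset.map_cons, Multiset.card_cons]
    have h4 : (Multiset.card s + 1) * w = Multiset.card s * w + w := by ring
    omega

/-- comparison of two sets at bounded distance -/
lemma bounded_aux (A A' : Set ℕ) (ψ : ℕ → ℕ) (w h R : ℕ) (hψ : ∀ v ∈ A, ψ v ∈ A')
    (h1 : ∀ v ∈ A, v ≤ ψ v + w ∧ ψ v ≤ v + w) (hR : ∀ m, r A' h m ≤ R) (m : ℕ) :
    r A h m ≤ (h * (2 * w + 1)) ^ h * ((2 * (h * w) + 1) * R) := by
  classical
  set S : Finset (Multiset ℕ) := (msets_finite A h m).toFinset with hS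
  have hmem : ∀ s, s ∈ S ↔ s ∈ msets A h m := fun s => by
    rw [hS, Set.Finite.mem_toFinset]
  have hcard : r A h m = S.card := by
    rw [hS, ← Set.ncard_eq_toFinset_card _ (msets_finite A h m)]
    rfl
  rw [hcard]
  have hfib : S.card ≤ (h * (2 * w + 1)) ^ h * (S.image (Multiset.map ψ)).card := by
    apply Finset.card_le_mul_card_image
    intro M hM
    rw [Finset.mem_image] at hM
    obtain ⟨s0, hs0, rfl⟩ := hM
    rw [hmem] at hs0
    set Z : Finset ℕ := (Multiset.map ψ s0).toFinset.biUnion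
      (fun v => Finset.Icc (v - w) (v + w)) with hZ
    have hZcard : Z.card ≤ h * (2 * w + 1) := by
      calc Z.card ≤ (Multiset.map ψ s0).toFinset.card * (2 * w + 1) := by
            apply Finset.card_biUnion_le_card_mul
            intro v _
            rw [Nat.card_Icc]
            omega
        _ ≤ h * (2 * w + 1) := by
            apply Nat.mul_le_mul_right
            refine (Multiset.toFinset_card_le _).trans ?_
            rw [Multiset.card_map]
            exact le_of_eq hs0.1
    have hsub : S.filter (fun s => Multiset.map ψ s = Multiset.map ψ s0) ⊆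
        (Fintype.piFinset (fun _ : Fin h => Z)).image mset := by
      intro s hs
      rw [Finset.mem_filter, hmem] at hs
      obtain ⟨t, rfl⟩ := exists_tuple s hs.1.1
      refine Finset.mem_image_of_mem _ ?_
      rw [Fintype.mem_piFinset]
      intro i
      have h2 : t i ∈ mset t := mem_mset.2 ⟨i, rfl⟩
      have h3 := h1 _ (hs.1.2.1 _ h2)
      rw [hZ, Finset.mem_biUnion]
      refine ⟨ψ (t i), ?_, ?_⟩
      · rw [Multiset.mem_toFinset, ← hs.2]
        exact Multiset.mem_map_of_mem ψ h2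
      · rw [Finset.mem_Icc]
        omega
    refine (Finset.card_le_card hsub).trans (Finset.card_image_le.trans ?_)
    rw [Fintype.card_piFinset]
    simp only [Finset.prod_const, Finset.card_univ, Fintype.card_fin]
    exact Nat.pow_le_pow_left hZcard h
  refine hfib.trans (Nat.mul_le_mul_left _ ?_)
  have hsub : S.image (Multiset.map ψ) ⊆ (Finset.Icc (m - h * w) (m + h * w)).biUnion
      (fun j => (msets_finite A' h j).toFinset) := by
    intro M hM
    rw [Finset.mem_image] at hM
    obtain ⟨s, hs, rfl⟩ := hM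
    rw [hmem] at hs
    have h2 := sum_close ψ w s (fun v hv => h1 v (hs.2.1 v hv))
    rw [hs.1, hs.2.2] at h2
    rw [Finset.mem_biUnion]
    refine ⟨(Multiset.map ψ s).sum, ?_, ?_⟩
    · rw [Finset.mem_Icc]
      omega
    · rw [Set.Finite.mem_toFinset]
      refine ⟨by rw [Multiset.card_map, hs.1], ?_, rfl⟩
      intro v hv
      rw [Multiset.mem_map] at hv
      obtain ⟨u, hu, rfl⟩ := hv
      exact hψ u (hs.2.1 u hu)
  refine (Finset.card_le_card hsub).trans ?_
  refine (Finset.card_biUnion_le_card_mul _ _ R ?_).trans ?_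
  · intro j _
    rw [← Set.ncard_eq_toFinset_card _ (msets_finite A' h j)]
    exact hR j
  · apply Nat.mul_le_mul_right
    rw [Nat.card_Icc]
    omega

/-- **Bounded perturbations do not matter.** -/
theorem bounded_shift (a x : ℕ → ℕ) (w h : ℕ) (hx : ∀ n, x n ≤ w) :
    (∃ R, ∀ m, r (Set.range a) h m ≤ R) ↔
      (∃ R, ∀ m, r (Set.range fun n => a n + x n) h m ≤ R) := by
  classical
  constructor
  · rintro ⟨R, hR⟩
    have hex : ∀ v, v ∈ (Set.range fun n => a n + x n) → ∃ n, a n + x n = v := fun v hv => hv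
    choose! ν hν using hex
    refine ⟨_, bounded_aux _ (Set.range a) (fun v => a (ν v)) w h R (fun v _ => ⟨_, rfl⟩) ?_ hR⟩
    intro v hv
    have h1 := hν v hv
    have h2 := hx (ν v)
    constructor <;> omega
  · rintro ⟨R, hR⟩
    have hex : ∀ v, v ∈ Set.range a → ∃ n, a n = v := fun v hv => hv
    choose! ν hν using hex
    refine ⟨_, bounded_aux _ (Set.range fun n => a n + x n) (fun v => a (ν v) + x (ν v)) w h R
      (fun v _ => ⟨ν v, rfl⟩) ?_ hR⟩
    intro v hv
    have h1 := hν v hv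
    have h2 := hx (ν v)
    constructor <;> omega

/-- growth of the elements of an additive basis -/
theorem basis_growth (A : Set ℕ) (h n0 : ℕ)
    (hA : ∀ n, n0 ≤ n → ∃ s : Multiset ℕ, Multiset.card s = h ∧ (∀ v ∈ s, v ∈ A) ∧ s.sum = n) :
    A.Infinite ∧ ∀ k, Nat.nth (· ∈ A) k ≤ (n0 + 1) * (k + 1) ^ h := by
  classical
  have hinf : A.Infinite := by
    rw [Set.infinite_iff_exists_gt]
    intro b
    obtain ⟨s, h1, h2, h3⟩ := hA (max n0 (h * b + 1)) (le_max_left _ _)
    by_contra hcon
    push Not at hcon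
    have h4 : s.sum ≤ Multiset.card s * b := by
      rw [← smul_eq_mul]
      exact Multiset.sum_le_card_nsmul s b (fun v hv => hcon v (h2 v hv))
    rw [h1, h3] at h4
    have := le_max_right n0 (h * b + 1)
    omega
  refine ⟨hinf, fun k => ?_⟩
  set a : ℕ → ℕ := Nat.nth (· ∈ A) with ha
  have hmem : ∀ v ∈ A, ∃ n, a n = v := fun v hv => by
    have h1 := (Nat.range_nth_of_infinite (p := (· ∈ A)) hinf)
    have h2 : v ∈ Set.range (Nat.nth (· ∈ A)) := by rw [h1]; exact hv
    exact h2
  have hmono : StrictMono a := Nat.nth_strictMono hinf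
  -- tuples
  have hex : ∀ m ∈ Finset.Ico n0 (a k), ∃ t : Fin h → ℕ, (∀ i, t i ∈ Finset.range k) ∧
      ∑ i, a (t i) = m := by
    intro m hm
    rw [Finset.mem_Ico] at hm
    obtain ⟨s, h1, h2, h3⟩ := hA m hm.1
    obtain ⟨t, rfl⟩ := exists_tuple s h1
    have h4 : ∀ i, ∃ n, a n = t i := fun i => hmem _ (h2 _ (mem_mset.2 ⟨i, rfl⟩))
    choose ν hν using h4
    refine ⟨ν, ?_, ?_⟩
    · intro i
      rw [Finset.mem_range]
      apply hmono.lt_iff_lt.1
      rw [hν]
      refine lt_of_le_of_lt ?_ hm.2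
      rw [← h3, sum_mset]
      exact Finset.single_le_sum (f := t) (fun _ _ => Nat.zero_le _) (Finset.mem_univ i)
    · rw [← h3, sum_mset]
      exact Finset.sum_congr rfl fun i _ => hν i
  choose! τ hτ1 hτ2 using hex
  have hcard : (Finset.Ico n0 (a k)).card ≤ k ^ h := by
    have h1 : (Finset.Ico n0 (a k)).card ≤ (Fintype.piFinset (fun _ : Fin h => Finset.range k)).card := by
      apply Finset.card_le_card_of_injOn τ
      · intro m hm
        rw [Finset.mem_coe, Fintype.mem_piFinset]
        exact hτ1 m hm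
      · intro m hm m' hm' hmm
        rw [← hτ2 m hm, ← hτ2 m' hm', hmm]
    refine h1.trans (le_of_eq ?_)
    rw [Fintype.card_piFinset]
    simp
  rw [Nat.card_Ico] at hcard
  have h5 : k ^ h ≤ (k + 1) ^ h := Nat.pow_le_pow_left (Nat.le_succ k) h
  have h6 : 1 ≤ (k + 1) ^ h := Nat.one_le_pow _ _ (Nat.succ_pos k)
  have h7 : a k ≤ n0 + k ^ h := by omega
  have h8 : n0 * 1 ≤ n0 * (k + 1) ^ h := Nat.mul_le_mul_left _ h6
  have h9 : (n0 + 1) * (k + 1) ^ h = n0 * (k + 1) ^ h + (k + 1) ^ h := by ring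
  omega

/-- the number of ordered representations -/
noncomputable def rep (A : Set ℕ) (n : ℕ) : ℕ :=
  Set.ncard {p : ℕ × ℕ | p.1 ∈ A ∧ p.2 ∈ A ∧ p.1 + p.2 = n}

lemma pairs_finite (A : Set ℕ) (n : ℕ) :
    {p : ℕ × ℕ | p.1 ∈ A ∧ p.2 ∈ A ∧ p.1 + p.2 = n}.Finite := by
  apply (((Finset.range (n + 1)) ×ˢ (Finset.range (n + 1))).finite_toSet).subset
  rintro p ⟨_, _, h⟩
  rw [Finset.mem_coe, Finset.mem_product, Finset.mem_range, Finset.mem_range]
  omega

lemma r_le_rep (A : Set ℕ) (n : ℕ) : r A 2 n ≤ rep A n := by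
  have h1 : msets A 2 n ⊆ (fun p : ℕ × ℕ => ({p.1, p.2} : Multiset ℕ)) ''
      {p : ℕ × ℕ | p.1 ∈ A ∧ p.2 ∈ A ∧ p.1 + p.2 = n} := by
    rintro s ⟨hs1, hs2, hs3⟩
    rw [Multiset.card_eq_two] at hs1
    obtain ⟨u, v, rfl⟩ := hs1
    refine ⟨(u, v), ⟨hs2 u (by simp), hs2 v (by simp), by simpa using hs3⟩, rfl⟩
  have h2 := Set.ncard_le_ncard h1 ((pairs_finite A n).image _)
  exact h2.trans (Set.ncard_image_le (pairs_finite A n))

lemma rep_le (A : Set ℕ) (n : ℕ) : rep A n ≤ 2 * r A 2 n := by
  classical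
  unfold rep
  rw [Set.ncard_eq_toFinset_card _ (pairs_finite A n)]
  apply card_le_mul_r A 2 n 2 _ (fun p : ℕ × ℕ => ({p.1, p.2} : Multiset ℕ))
  · intro p hp
    rw [Set.Finite.mem_toFinset] at hp
    obtain ⟨h1, h2, h3⟩ := hp
    refine ⟨by simp, ?_, by simpa using h3⟩
    intro v hv
    simp only [Multiset.insert_eq_cons, Multiset.mem_cons, Multiset.mem_singleton] at hv
    rcases hv with rfl | rfl
    · exact h1
    · exact h2
  · intro M
    exact fiber_pair _ M

end Pool.Agent.W167.ET
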