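import Mathlib

set_option autoImplicit false

/-! Random perturbations of sets of integers: the probability operator `Pr`. -/

namespace Pool.Agent.W167.ET

open MeasureTheory ProbabilityTheory Finset

/-- The number of unordered representations of `n` as a sum of `h` elements of `A`. -/
noncomputable def r (A : Set ℕ) (h n : ℕ) : ℕ :=
  Set.ncard {s : Multiset ℕ | Multiset.card s = h ∧ (∀ a ∈ s, a ∈ A) ∧ s.sum = n}

variable {Ω : Type*} [MeasurableSpace Ω]

/-- Independent random shifts `ε n` with values in `[0, w n]` and densities at most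
`B / (w n + 1)`. -/
structure Pert (μ : Measure Ω) (w : ℕ → ℕ) (B : ℝ) (ε : ℕ → Ω → ℕ) : Prop where
  indep : iIndepFun ε μ
  meas : ∀ n, Measurable (ε n)
  le : ∀ n ω, ε n ω ≤ w n
  dens : ∀ n j, μ.real {ω | ε n ω = j} ≤ B / (w n + 1)

/-- probability of an event which depends on the shifts -/
noncomputable def Pr (μ : Measure Ω) (ε : ℕ → Ω → ℕ) (E : (ℕ → ℕ) → Prop) : ℝ :=
  μ.real {ω | E (fun n => ε n ω)}

/-- the event depends only on the coordinates in `S` -/
def DepOn (S : Finset ℕ) (E : (ℕ → ℕ) → Prop) : Prop :=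
  ∀ x y : ℕ → ℕ, (∀ n ∈ S, x n = y n) → (E x ↔ E y)

lemma DepOn.mono {S T : Finset ℕ} {E : (ℕ → ℕ) → Prop} (h : DepOn S E) (hST : S ⊆ T) :
    DepOn T E := fun x y hxy => h x y fun n hn => hxy n (hST hn)

lemma DepOn.and {S : Finset ℕ} {E F : (ℕ → ℕ) → Prop} (hE : DepOn S E) (hF : DepOn S F) :
    DepOn S (fun x => E x ∧ F x) := fun x y hxy => and_congr (hE x y hxy) (hF x y hxy)

lemma DepOn.not {S : Finset ℕ} {E : (ℕ → ℕ) → Prop} (hE : DepOn S E) :
    DepOn S (fun x => ¬ E x) := fun x y hxy => not_congr (hE x y hxy)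

lemma DepOn.ex {ι : Sort*} {S : Finset ℕ} {E : ι → (ℕ → ℕ) → Prop} (hE : ∀ i, DepOn S (E i)) :
    DepOn S (fun x => ∃ i, E i x) := fun x y hxy => exists_congr fun i => hE i x y hxy

lemma DepOn.all {ι : Sort*} {S : Finset ℕ} {E : ι → (ℕ → ℕ) → Prop} (hE : ∀ i, DepOn S (E i)) :
    DepOn S (fun x => ∀ i, E i x) := fun x y hxy => forall_congr' fun i => hE i x y hxy

lemma DepOn.const {S : Finset ℕ} (p : Prop) : DepOn S (fun _ => p) := fun _ _ _ => Iff.rfl

/-- extension by zero -/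
def ext0 (S : Finset ℕ) (x : S → ℕ) : ℕ → ℕ := fun n => if h : n ∈ S then x ⟨n, h⟩ else 0

lemma DepOn.ext0_iff {S : Finset ℕ} {E : (ℕ → ℕ) → Prop} (h : DepOn S E) (x : ℕ → ℕ) :
    E x ↔ E (ext0 S (fun n : S => x n)) := by
  apply h
  intro n hn
  simp [ext0, hn]

section
variable {μ : Measure Ω} {w : ℕ → ℕ} {B : ℝ} {ε : ℕ → Ω → ℕ}

lemma Pert.prob (hP : Pert μ w B ε) : IsProbabilityMeasure μ := hP.indep.isProbabilityMeasure

lemma meas_restrict (hm : ∀ n, Measurable (ε n)) (S : Finset ℕ) :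
    Measurable (fun ω (n : S) => ε n ω) := measurable_pi_lambda _ fun n => hm n

lemma DepOn.measurableSet {S : Finset ℕ} {E : (ℕ → ℕ) → Prop} (h : DepOn S E)
    (hm : ∀ n, Measurable (ε n)) : MeasurableSet {ω | E (fun n => ε n ω)} := by
  have e : {ω | E (fun n => ε n ω)} = (fun ω (n : S) => ε n ω) ⁻¹' {x | E (ext0 S x)} := by
    ext ω
    exact h.ext0_iff _
  rw [e]
  exact meas_restrict hm S (MeasurableSet.of_discrete)

lemma Pr_nonneg (E : (ℕ → ℕ) → Prop) : 0 ≤ Pr μ ε E := measureReal_nonneg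

lemma Pr_le_one (hP : Pert μ w B ε) (E : (ℕ → ℕ) → Prop) : Pr μ ε E ≤ 1 := by
  have := hP.prob
  exact measureReal_le_one

lemma Pr_mono (hP : Pert μ w B ε) {E F : (ℕ → ℕ) → Prop}
    (h : ∀ x : ℕ → ℕ, (∀ n, x n ≤ w n) → E x → F x) : Pr μ ε E ≤ Pr μ ε F := by
  have := hP.prob
  exact measureReal_mono (fun ω hω => h _ (fun n => hP.le n ω) hω)

lemma Pr_congr (hP : Pert μ w B ε) {E F : (ℕ → ℕ) → Prop}
    (h : ∀ x : ℕ → ℕ, (∀ n, x n ≤ w n) → (E x ↔ F x)) : Pr μ ε E = Pr μ ε F :=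
  le_antisymm (Pr_mono hP fun x hx => (h x hx).1) (Pr_mono hP fun x hx => (h x hx).2)

lemma Pr_or_le (hP : Pert μ w B ε) (E F : (ℕ → ℕ) → Prop) :
    Pr μ ε (fun x => E x ∨ F x) ≤ Pr μ ε E + Pr μ ε F := by
  have := hP.prob
  exact measureReal_union_le _ _

lemma Pr_not (hP : Pert μ w B ε) {S : Finset ℕ} {E : (ℕ → ℕ) → Prop} (h : DepOn S E) :
    Pr μ ε (fun x => ¬ E x) = 1 - Pr μ ε E := by
  have := hP.prob
  exact probReal_compl_eq_one_sub (h.measurableSet hP.meas)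

lemma Pr_true (hP : Pert μ w B ε) {E : (ℕ → ℕ) → Prop}
    (h : ∀ x : ℕ → ℕ, (∀ n, x n ≤ w n) → E x) : Pr μ ε E = 1 := by
  have := hP.prob
  have e : {ω | E (fun n => ε n ω)} = Set.univ := by
    ext ω
    simp only [Set.mem_ofPred_eq, Set.mem_univ, iff_true]
    exact h _ fun n => hP.le n ω
  unfold Pr
  rw [e]
  exact probReal_univ

/-- union bound over a finite set -/
lemma Pr_exists_le {ι : Type*} (s : Finset ι) (E : ι → (ℕ → ℕ) → Prop) (hP : Pert μ w B ε) :
    Pr μ ε (fun x => ∃ i ∈ s, E i x) ≤ ∑ i ∈ s, Pr μ ε (E i) := by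
  have := hP.prob
  have e : {ω | ∃ i ∈ s, E i (fun n => ε n ω)} = ⋃ i ∈ s, {ω | E i (fun n => ε n ω)} := by
    ext ω
    simp
  unfold Pr
  rw [e]
  exact measureReal_biUnion_finset_le _ _

/-- disjoint union -/
lemma Pr_exists_eq {ι : Type*} (s : Finset ι) (E : ι → (ℕ → ℕ) → Prop) (hP : Pert μ w B ε)
    {S : Finset ℕ} (hE : ∀ i ∈ s, DepOn S (E i))
    (hd : ∀ i ∈ s, ∀ j ∈ s, i ≠ j → ∀ x, E i x → ¬ E j x) :
    Pr μ ε (fun x => ∃ i ∈ s, E i x) = ∑ i ∈ s, Pr μ ε (E i) := by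
  have := hP.prob
  have e : {ω | ∃ i ∈ s, E i (fun n => ε n ω)} = ⋃ i ∈ s, {ω | E i (fun n => ε n ω)} := by
    ext ω
    simp
  unfold Pr
  rw [e]
  refine measureReal_biUnion_finset ?_ ?_
  · intro i hi j hj hij
    rw [Function.onFun, Set.disjoint_left]
    intro ω h1 h2
    exact hd i hi j hj hij _ h1 h2
  · intro i hi
    exact (hE i hi).measurableSet hP.meas

lemma Pr_and (hP : Pert μ w B ε) {S T : Finset ℕ} (hST : Disjoint S T)
    {E F : (ℕ → ℕ) → Prop} (hE : DepOn S E) (hF : DepOn T F) :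
    Pr μ ε (fun x => E x ∧ F x) = Pr μ ε E * Pr μ ε F := by
  have := hP.prob
  have hI := hP.indep.indepFun_finset S T hST hP.meas
  have h1 := hI.measure_inter_preimage_eq_mul {x | E (ext0 S x)} {x | F (ext0 T x)}
    MeasurableSet.of_discrete MeasurableSet.of_discrete
  have e1 : {ω | E (fun n => ε n ω)} = (fun ω (n : S) => ε n ω) ⁻¹' {x | E (ext0 S x)} := by
    ext ω
    exact hE.ext0_iff _
  have e2 : {ω | F (fun n => ε n ω)} = (fun ω (n : T) => ε n ω) ⁻¹' {x | F (ext0 T x)} := by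
    ext ω
    exact hF.ext0_iff _
  have e3 : {ω | E (fun n => ε n ω) ∧ F (fun n => ε n ω)} =
      {ω | E (fun n => ε n ω)} ∩ {ω | F (fun n => ε n ω)} := rfl
  unfold Pr
  rw [e3, e1, e2]
  unfold Measure.real
  rw [h1, ENNReal.toReal_mul]

/-- glue `y` on `T` with `x` outside -/
def glue (T : Finset ℕ) (y x : ℕ → ℕ) : ℕ → ℕ := fun n => if n ∈ T then y n else x n

/-- **Freezing.** -/
lemma Pr_freeze (hP : Pert μ w B ε) {S T : Finset ℕ} (hST : Disjoint S T)
    {E Y : (ℕ → ℕ) → Prop} (hE : DepOn (S ∪ T) E) (hY : DepOn T Y) {p : ℝ} (hp : 0 ≤ p)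
    (h : ∀ y : ℕ → ℕ, (∀ n, y n ≤ w n) → Y y → p ≤ Pr μ ε (fun x => E (glue T y x))) :
    p * Pr μ ε Y ≤ Pr μ ε E := by
  have := hP.prob
  classical
  have hI := hP.indep.indepFun_finset T S hST.symm hP.meas
  have hmT := meas_restrict hP.meas T
  have hmS := meas_restrict hP.meas S
  rw [indepFun_iff_map_prod_eq_prod_map_map hmT.aemeasurable hmS.aemeasurable] at hI
  set XT : Ω → (T → ℕ) := fun ω n => ε n ω with hXT
  set XS : Ω → (S → ℕ) := fun ω n => ε n ω with hXS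
  set D : Set ((T → ℕ) × (S → ℕ)) := {z | E (glue T (ext0 T z.1) (ext0 S z.2))} with hD
  have hDE : {ω | E (fun n => ε n ω)} = (fun ω => (XT ω, XS ω)) ⁻¹' D := by
    ext ω
    simp only [Set.mem_ofPred_eq, Set.mem_preimage, hD]
    apply hE
    intro n hn
    simp only [glue, ext0, hXT, hXS]
    by_cases h1 : n ∈ T
    · simp [h1]
    · have h2 : n ∈ S := by
        rcases Finset.mem_union.1 hn with h | h
        · exact h
        · exact absurd h h1
      simp [h1, h2]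
  have h1 : μ {ω | E (fun n => ε n ω)} = ∫⁻ y, (μ.map XS) (Prod.mk y ⁻¹' D) ∂(μ.map XT) := by
    rw [hDE, ← Measure.map_apply (hmT.prodMk hmS) MeasurableSet.of_discrete, hI,
      Measure.prod_apply MeasurableSet.of_discrete]
  -- the frozen set
  set Y0 : Set (T → ℕ) := {y | Y (ext0 T y) ∧ ∀ n : T, y n ≤ w n} with hY0
  have h2 : ∀ y ∈ Y0, ENNReal.ofReal p ≤ (μ.map XS) (Prod.mk y ⁻¹' D) := by
    intro y hy
    have h3 := h (ext0 T y) (fun n => by
      by_cases hn : n ∈ T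
      · simp only [ext0, hn, dif_pos]
        exact hy.2 ⟨n, hn⟩
      · simp [ext0, hn]) hy.1
    rw [Measure.map_apply hmS MeasurableSet.of_discrete]
    have e : XS ⁻¹' (Prod.mk y ⁻¹' D) = {ω | E (glue T (ext0 T y) (fun n => ε n ω))} := by
      ext ω
      simp only [Set.mem_preimage, hD, Set.mem_ofPred_eq]
      apply hE
      intro n hn
      simp only [glue]
      by_cases h1 : n ∈ T
      · simp [h1]
      · have h2 : n ∈ S := by
          rcases Finset.mem_union.1 hn with h | h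
          · exact h
          · exact absurd h h1
        simp [h1, h2, ext0, hXS]
    rw [e]
    unfold Pr Measure.real at h3
    exact ENNReal.ofReal_le_of_le_toReal h3
  have h4 : ENNReal.ofReal p * (μ.map XT) Y0 ≤ μ {ω | E (fun n => ε n ω)} := by
    rw [h1, ← setLIntegral_const]
    calc ∫⁻ _ in Y0, ENNReal.ofReal p ∂(μ.map XT)
        ≤ ∫⁻ y in Y0, (μ.map XS) (Prod.mk y ⁻¹' D) ∂(μ.map XT) :=
          setLIntegral_mono' MeasurableSet.of_discrete h2
      _ ≤ _ := setLIntegral_le_lintegral _ _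
  have h5 : (μ.map XT) Y0 = μ {ω | Y (fun n => ε n ω)} := by
    rw [Measure.map_apply hmT MeasurableSet.of_discrete]
    congr 1
    ext ω
    simp only [Set.mem_preimage, hY0, Set.mem_ofPred_eq, hXT]
    rw [hY.ext0_iff (fun n => ε n ω)]
    exact ⟨fun h => h.1, fun h => ⟨h, fun n => hP.le n ω⟩⟩
  rw [h5] at h4
  have h6 := ENNReal.toReal_mono (measure_ne_top _ _) h4
  rw [ENNReal.toReal_mul, ENNReal.toReal_ofReal hp] at h6
  exact h6

end

end Pool.Agent.W167.ET
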