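import Pool.Agent.W167.ET.Prob

set_option autoImplicit false

/-! Combinatorial lemmas: lower bounds for the representation function. -/

namespace Pool.Agent.W167.ET

open Finset

/-- the multisets counted by `r` -/
def msets (A : Set ℕ) (h n : ℕ) : Set (Multiset ℕ) :=
  {s : Multiset ℕ | Multiset.card s = h ∧ (∀ a ∈ s, a ∈ A) ∧ s.sum = n}

lemma msets_finite (A : Set ℕ) (h n : ℕ) : (msets A h n).Finite := by
  apply (((Finset.range (n + 1)).sym h).image (fun s : Sym ℕ h => (s : Multiset ℕ))).finite_toSet.subset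
  rintro s ⟨h1, _, h3⟩
  rw [Finset.mem_coe, Finset.mem_image]
  refine ⟨Sym.mk s h1, ?_, rfl⟩
  apply Finset.mem_sym_iff.2
  intro a ha
  rw [Finset.mem_range]
  have h4 : a ∈ s := ha
  have h5 : a ≤ s.sum := Multiset.le_sum_of_mem h4
  omega

/-- lower bound for `r` by a family with small fibres -/
lemma card_le_mul_r {ι : Type*} [DecidableEq ι] (A : Set ℕ) (h n c : ℕ) (S : Finset ι)
    (f : ι → Multiset ℕ) (hf : ∀ i ∈ S, f i ∈ msets A h n)
    (hc : ∀ M, (S.filter (fun i => f i = M)).card ≤ c) : S.card ≤ c * r A h n := by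
  classical
  have h1 : S.card ≤ c * (S.image f).card := by
    apply Finset.card_le_mul_card_image
    intro M _
    exact hc M
  have h2 : (S.image f).card ≤ r A h n := by
    have h3 : ((S.image f : Finset (Multiset ℕ)) : Set (Multiset ℕ)) ⊆ msets A h n := by
      intro M hM
      rw [Finset.mem_coe, Finset.mem_image] at hM
      obtain ⟨i, hi, rfl⟩ := hM
      exact hf i hi
    have h4 := Set.ncard_le_ncard h3 (msets_finite A h n)
    rw [Set.ncard_coe_finset] at h4
    exact h4
  exact h1.trans (Nat.mul_le_mul_left _ h2)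

lemma r_add_one {A : Set ℕ} {h m x K : ℕ} (hx : x ∈ A) (hr : K ≤ r A h m) :
    K ≤ r A (h + 1) (x + m) := by
  refine hr.trans ?_
  change (msets A h m).ncard ≤ (msets A (h + 1) (x + m)).ncard
  refine Set.ncard_le_ncard_of_injOn (fun s => x ::ₘ s) ?_ ?_ (msets_finite _ _ _)
  · rintro s ⟨h1, h2, h3⟩
    refine ⟨by rw [Multiset.card_cons, h1], ?_, by rw [Multiset.sum_cons, h3]⟩
    intro a ha
    rw [Multiset.mem_cons] at ha
    rcases ha with rfl | ha
    · exact hx
    · exact h2 a ha
  · intro s _ t _ hst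
    exact (Multiset.cons_inj_right x).1 hst

/-- the shifted set -/
def Img (a : ℕ → ℕ) (J : Finset ℕ) (x : ℕ → ℕ) : Set ℕ := {v | ∃ n ∈ J, v = a n + x n}

/-- some integer has at least `K` representations -/
def Many (a : ℕ → ℕ) (J : Finset ℕ) (h K : ℕ) (x : ℕ → ℕ) : Prop := ∃ m, K ≤ r (Img a J x) h m

lemma Img_congr {a : ℕ → ℕ} {J : Finset ℕ} {x y : ℕ → ℕ} (h : ∀ n ∈ J, x n = y n) :
    Img a J x = Img a J y := by
  ext v
  constructor
  · rintro ⟨n, hn, hv⟩
    exact ⟨n, hn, by rw [hv, h n hn]⟩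
  · rintro ⟨n, hn, hv⟩
    exact ⟨n, hn, by rw [hv, h n hn]⟩

lemma dep_Many (a : ℕ → ℕ) (J : Finset ℕ) (h K : ℕ) : DepOn J (Many a J h K) := by
  intro x y hxy
  unfold Many
  rw [Img_congr hxy]

lemma Many_up {a : ℕ → ℕ} {J : Finset ℕ} {h h' K : ℕ} {x : ℕ → ℕ} (hJ : J.Nonempty)
    (hh : h ≤ h') (hM : Many a J h K x) : Many a J h' K x := by
  obtain ⟨n, hn⟩ := hJ
  obtain ⟨d, rfl⟩ := Nat.exists_eq_add_of_le hh
  induction d with
  | zero => exact hM
  | succ d ih =>
    obtain ⟨m, hm⟩ := ih (Nat.le_add_right _ _)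
    exact ⟨_, r_add_one (x := a n + x n) ⟨n, hn, rfl⟩ hm⟩

/-- the multiset of the values of a tuple -/
def mset {k : ℕ} (t : Fin k → ℕ) : Multiset ℕ := Multiset.map t (Finset.univ : Finset (Fin k)).val

lemma card_mset {k : ℕ} (t : Fin k → ℕ) : Multiset.card (mset t) = k := by
  simp [mset]

lemma sum_mset {k : ℕ} (t : Fin k → ℕ) : (mset t).sum = ∑ i, t i := rfl

lemma mem_mset {k : ℕ} {t : Fin k → ℕ} {v : ℕ} : v ∈ mset t ↔ ∃ i, t i = v := by
  simp [mset]

lemma fiber_mset {k : ℕ} (S : Finset (Fin k → ℕ)) (M : Multiset ℕ) :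
    (S.filter (fun t => mset t = M)).card ≤ k ^ k := by
  classical
  by_cases hM : Multiset.card M = k
  · have h1 : (S.filter (fun t => mset t = M)) ⊆ Fintype.piFinset (fun _ : Fin k => M.toFinset) := by
      intro t ht
      rw [Finset.mem_filter] at ht
      rw [Fintype.mem_piFinset]
      intro i
      rw [Multiset.mem_toFinset, ← ht.2]
      exact mem_mset.2 ⟨i, rfl⟩
    refine (Finset.card_le_card h1).trans ?_
    rw [Fintype.card_piFinset]
    simp only [Finset.prod_const, Finset.card_univ, Fintype.card_fin]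
    apply Nat.pow_le_pow_left
    rw [← hM]
    exact Multiset.toFinset_card_le M
  · have h1 : S.filter (fun t => mset t = M) = ∅ := by
      apply Finset.filter_eq_empty_iff.2
      intro t _ ht
      apply hM
      rw [← ht, card_mset]
    rw [h1]
    simp

/-- selection of one group -/
lemma exists_group (q : ℕ → ℝ) {β : ℝ} (hβ : 0 ≤ β) (F : Finset ℕ) (hq0 : ∀ n ∈ F, 0 ≤ q n)
    (hq : ∀ n ∈ F, q n ≤ β) (hs : β ≤ ∑ n ∈ F, q n) :
    ∃ G ⊆ F, β ≤ ∑ n ∈ G, q n ∧ ∑ n ∈ G, q n ≤ 2 * β := by
  classical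
  induction F using Finset.strongInduction with
  | H F ih =>
    by_cases h : ∑ n ∈ F, q n ≤ 2 * β
    · exact ⟨F, Finset.Subset.refl _, hs, h⟩
    · push Not at h
      have hne : F.Nonempty := by
        by_contra hne
        rw [Finset.not_nonempty_iff_eq_empty] at hne
        rw [hne] at h hs
        simp at h hs
        linarith
      obtain ⟨n, hn⟩ := hne
      have h1 := Finset.sum_erase_add F q hn
      have h2 := hq n hn
      obtain ⟨G, hG, h3, h4⟩ := ih (F.erase n) (Finset.erase_ssubset hn)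
        (fun m hm => hq0 m (Finset.mem_of_mem_erase hm))
        (fun m hm => hq m (Finset.mem_of_mem_erase hm)) (by linarith)
      exact ⟨G, hG.trans (Finset.erase_subset _ _), h3, h4⟩

/-- selection of `K` disjoint groups -/
lemma exists_groups (q : ℕ → ℝ) {β : ℝ} (hβ : 0 ≤ β) (K : ℕ) : ∀ (F : Finset ℕ)
    (_ : ∀ n ∈ F, 0 ≤ q n) (_ : ∀ n ∈ F, q n ≤ β) (_ : 2 * K * β ≤ ∑ n ∈ F, q n),
    ∃ G : ℕ → Finset ℕ, (∀ i < K, G i ⊆ F) ∧
      (∀ i < K, ∀ j < K, i ≠ j → Disjoint (G i) (G j)) ∧
      (∀ i < K, β ≤ ∑ n ∈ G i, q n ∧ ∑ n ∈ G i, q n ≤ 2 * β) := by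
  classical
  induction K with
  | zero =>
    intro F _ _ _
    exact ⟨fun _ => ∅, by simp, by simp, by simp⟩
  | succ K ih =>
    intro F hq0 hq hs
    push_cast at hs
    have h0 : β ≤ ∑ n ∈ F, q n := by
      have : (0 : ℝ) ≤ K * β := by positivity
      nlinarith
    obtain ⟨G0, hG0, h1, h2⟩ := exists_group q hβ F hq0 hq h0
    have h3 := Finset.sum_sdiff (f := q) hG0
    obtain ⟨G, hG1, hG2, hG3⟩ := ih (F \ G0) (fun n hn => hq0 n (Finset.mem_sdiff.1 hn).1)
      (fun n hn => hq n (Finset.mem_sdiff.1 hn).1) (by linarith)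
    refine ⟨fun i => if i = K then G0 else G i, ?_, ?_, ?_⟩
    · intro i hi
      by_cases h : i = K
      · simp only [h, if_true]; exact hG0
      · simp only [h, if_false]
        exact (hG1 i (by omega)).trans Finset.sdiff_subset
    · intro i hi j hj hij
      by_cases h : i = K
      · have hj' : j ≠ K := by omega
        simp only [h, if_true, hj', if_false]
        exact (Finset.disjoint_of_subset_left (hG1 j (by omega)) Finset.sdiff_disjoint).symm
      · by_cases h' : j = K
        · simp only [h, if_false, h', if_true]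
          exact Finset.disjoint_of_subset_left (hG1 i (by omega)) Finset.sdiff_disjoint
        · simp only [h, h', if_false]
          exact hG2 i (by omega) j (by omega) hij
    · intro i hi
      by_cases h : i = K
      · simp only [h, if_true]; exact ⟨h1, h2⟩
      · simp only [h, if_false]
        exact hG3 i (by omega)

lemma fiber_pair (S : Finset (ℕ × ℕ)) (M : Multiset ℕ) :
    (S.filter (fun p => ({p.1, p.2} : Multiset ℕ) = M)).card ≤ 2 := by
  classical
  by_cases h : (S.filter (fun p => ({p.1, p.2} : Multiset ℕ) = M)).Nonempty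
  · obtain ⟨q, hq⟩ := h
    rw [Finset.mem_filter] at hq
    have h1 : S.filter (fun p => ({p.1, p.2} : Multiset ℕ) = M) ⊆ {q, (q.2, q.1)} := by
      intro p hp
      rw [Finset.mem_filter] at hp
      have h2 : ({p.1, p.2} : Multiset ℕ) = {q.1, q.2} := hp.2.trans hq.2.symm
      have h3 : p.1 + p.2 = q.1 + q.2 := by
        have := congrArg Multiset.sum h2
        simpa using this
      have h4 : p.1 ∈ ({q.1, q.2} : Multiset ℕ) := by
        rw [← h2]
        simp
      simp only [Multiset.insert_eq_cons, Multiset.mem_cons, Multiset.mem_singleton] at h4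
      rw [Finset.mem_insert, Finset.mem_singleton]
      rcases h4 with h4 | h4
      · left
        ext
        · exact h4
        · omega
      · right
        ext
        · exact h4
        · show p.2 = q.1
          omega
    exact (Finset.card_le_card h1).trans Finset.card_le_two
  · rw [Finset.not_nonempty_iff_eq_empty] at h
    rw [h]
    simp

/-- a dense set of shifted values -/
lemma Many_of_dense (a : ℕ → ℕ) (J : Finset ℕ) (x : ℕ → ℕ) (D : Finset ℕ) (z L K : ℕ)
    (hD : ∀ v ∈ D, v ∈ Img a J x) (hz : ∀ v ∈ D, z ≤ v ∧ v ≤ z + L)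
    (hK : 2 * K * (2 * L + 1) ≤ D.card ^ 2) : Many a J 2 K x := by
  classical
  by_contra hcon
  unfold Many at hcon
  push Not at hcon
  have hKpos : 0 < K := by
    have := hcon 0
    omega
  -- the pairs with sum `m`
  have h1 : ∀ m, ((D ×ˢ D).filter (fun p => p.1 + p.2 = m)).card ≤ 2 * (K - 1) := by
    intro m
    have h2 : ((D ×ˢ D).filter (fun p => p.1 + p.2 = m)).card ≤ 2 * r (Img a J x) 2 m := by
      apply card_le_mul_r _ _ _ _ _ (fun p : ℕ × ℕ => ({p.1, p.2} : Multiset ℕ))
      · intro p hp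
        rw [Finset.mem_filter, Finset.mem_product] at hp
        refine ⟨by simp, ?_, ?_⟩
        · intro v hv
          simp only [Multiset.insert_eq_cons, Multiset.mem_cons, Multiset.mem_singleton] at hv
          rcases hv with rfl | rfl
          · exact hD _ hp.1.1
          · exact hD _ hp.1.2
        · simpa using hp.2
      · intro M
        exact fiber_pair _ M
    have h3 := hcon m
    omega
  have h2 : (D ×ˢ D).card ≤ 2 * (K - 1) * (2 * L + 1) := by
    have h3 : (D ×ˢ D).card = ∑ m ∈ Finset.Icc (2 * z) (2 * z + 2 * L),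
        ((D ×ˢ D).filter (fun p => p.1 + p.2 = m)).card := by
      apply Finset.card_eq_sum_card_fiberwise
      intro p hp
      rw [Finset.mem_coe, Finset.mem_product] at hp
      have h4 := hz _ hp.1
      have h5 := hz _ hp.2
      show p.1 + p.2 ∈ (↑(Finset.Icc (2 * z) (2 * z + 2 * L)) : Set ℕ)
      rw [Finset.mem_coe, Finset.mem_Icc]
      constructor <;> omega
    rw [h3]
    calc ∑ m ∈ Finset.Icc (2 * z) (2 * z + 2 * L), ((D ×ˢ D).filter (fun p => p.1 + p.2 = m)).card
        ≤ ∑ _m ∈ Finset.Icc (2 * z) (2 * z + 2 * L), 2 * (K - 1) := Finset.sum_le_sum fun m _ => h1 m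
      _ = 2 * (K - 1) * (2 * L + 1) := by
        rw [Finset.sum_const, Nat.card_Icc, smul_eq_mul, mul_comm]
        congr 1
        omega
  rw [Finset.card_product, ← pow_two] at h2
  have h4 : 2 * (K - 1) * (2 * L + 1) < 2 * K * (2 * L + 1) := by
    apply Nat.mul_lt_mul_of_pos_right _ (by omega)
    omega
  omega

end Pool.Agent.W167.ET
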