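import Pool.Agent.W167.ET.Step

set_option autoImplicit false

/-! Induction on the order. -/

namespace Pool.Agent.W167.ET

open MeasureTheory ProbabilityTheory Finset

variable {Ω : Type*} [MeasurableSpace Ω] {μ : Measure Ω} {w : ℕ → ℕ} {B : ℝ} {ε : ℕ → Ω → ℕ}
  {a : ℕ → ℕ}

/-- many tuples in one window force, with a probability bounded below, an integer with `K`
representations -/
lemma tuples (hP : Pert μ w B ε) (ρ K : ℕ) (hK : 1 ≤ K) (k : ℕ) : ∀ (c : ℕ) (κ : ℝ), 0 < κ →
    ∃ p > 0, ∃ W0 : ℕ, ∀ (W : ℕ) (J : Finset ℕ), W0 ≤ W → Block w J W ρ →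
      ∀ (G : Fin (k + 1) → Finset ℕ) (z : ℕ) (H : Finset (Fin (k + 1) → ℕ)), (∀ i, G i ⊆ J) →
      (∀ i j, i ≠ j → Disjoint (G i) (G j)) → (∀ t ∈ H, ∀ i, t i ∈ G i) →
      (∀ t ∈ H, z ≤ ∑ i, a (t i) ∧ ∑ i, a (t i) ≤ z + c * W) → κ * W ≤ H.card →
      p ≤ Pr μ ε (Many a J (max (k + 1) 2) K) := by
  classical
  induction k with
  | zero =>
    intro c κ hκ
    obtain ⟨W0, hW0⟩ := cluster (a := a) hP ρ c K hκ
    refine ⟨1 / 2, by norm_num, W0, ?_⟩
    intro W J hW hb G z H hG _ hH hz hcard
    apply hW0 W J hW hb (H.image (fun t => t 0)) z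
    · intro n hn
      rw [Finset.mem_image] at hn
      obtain ⟨t, ht, rfl⟩ := hn
      exact hG 0 (hH t ht 0)
    · intro n hn
      rw [Finset.mem_image] at hn
      obtain ⟨t, ht, rfl⟩ := hn
      have := hz t ht
      simpa using this
    · have h1 : (H.image (fun t : Fin (0 + 1) → ℕ => t 0)).card = H.card := by
        apply Finset.card_image_of_injective
        intro s t hst
        funext i
        have : i = 0 := Fin.ext (by omega)
        rw [this]
        exact hst
      rw [h1]
      exact hcard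
  | succ k ih =>
    intro c κ hκ
    obtain ⟨η, hη, p1, hp1, hS⟩ := sparse_step (a := a) hP (k + 1) c ρ K hK hκ
    obtain ⟨W1, hW1⟩ := cluster (a := a) hP ρ ρ K hη
    obtain ⟨p2, hp2, W2, hW2⟩ := ih ((k + 1 + 1) * ρ) η hη
    refine ⟨min (1 / 2) (min p1 p2), lt_min (by norm_num) (lt_min hp1 hp2), max W1 W2, ?_⟩
    intro W J hW hb G z H hG hGd hH hz hcard
    have hmax : max (k + 1 + 1) 2 = k + 1 + 1 := by omega
    rw [hmax]
    have hWpos : (1 : ℝ) ≤ W := by exact_mod_cast hb.one
    have hHne : H.Nonempty := by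
      rw [← Finset.card_pos]
      have : (0 : ℝ) < H.card := lt_of_lt_of_le (by positivity) hcard
      exact_mod_cast this
    have hJne : J.Nonempty := by
      obtain ⟨t, ht⟩ := hHne
      exact ⟨t 0, hG 0 (hH t ht 0)⟩
    by_cases h1 : Sparse a J W ρ η
    · set H' : Finset (ℕ × (Fin (k + 1) → ℕ)) := H.image (fun t => (t 0, Fin.tail t)) with hH'
      have hH'card : H'.card = H.card := by
        apply Finset.card_image_of_injective
        intro s t hst
        rw [Prod.mk.injEq] at hst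
        rw [← Fin.cons_self_tail s, ← Fin.cons_self_tail t, hst.1, hst.2]
      by_cases h2 : Thin a H' W ρ η
      · refine (min_le_right _ _).trans ((min_le_left _ _).trans ?_)
        apply hS W J hb (G 0) z H' (hG 0)
        · intro q hq
          rw [hH', Finset.mem_image] at hq
          obtain ⟨t, ht, rfl⟩ := hq
          refine ⟨hH t ht 0, fun i => ?_⟩
          rw [Finset.mem_sdiff]
          refine ⟨hG _ (hH t ht i.succ), ?_⟩
          intro h0
          have hd := hGd 0 i.succ (Fin.succ_ne_zero i).symm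
          rw [Finset.disjoint_left] at hd
          exact hd h0 (hH t ht i.succ)
        · intro q hq
          rw [hH', Finset.mem_image] at hq
          obtain ⟨t, ht, rfl⟩ := hq
          have := hz t ht
          rw [Fin.sum_univ_succ] at this
          exact this
        · exact h1
        · exact h2
        · rw [hH'card]
          exact hcard
        · exact hJne
      · refine (min_le_right _ _).trans ((min_le_right _ _).trans ?_)
        unfold Thin at h2
        push Not at h2
        obtain ⟨n, z', h3⟩ := h2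
        set H'' := (H'.filter (fun p => p.1 = n ∧ z' ≤ ∑ i, a (p.2 i) ∧
          ∑ i, a (p.2 i) ≤ z' + (((k + 1 : ℕ)) + 1) * (ρ * W))).image Prod.snd with hH''
        have hc : (H'.filter (fun p => p.1 = n ∧ z' ≤ ∑ i, a (p.2 i) ∧
          ∑ i, a (p.2 i) ≤ z' + (((k + 1 : ℕ)) + 1) * (ρ * W))).card = H''.card := by
          rw [hH'', Finset.card_image_of_injOn]
          intro p hp q hq hpq
          rw [Finset.mem_coe, Finset.mem_filter] at hp hq
          exact Prod.ext (hp.2.1.trans hq.2.1.symm) hpq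
        have h4 := hW2 W J (le_trans (le_max_right _ _) hW) hb (fun i => G i.succ) z' H''
          (fun i => hG _) (fun i j hij => hGd _ _ (fun h => hij (Fin.succ_injective _ h)))
          (by
            intro t ht i
            rw [hH'', Finset.mem_image] at ht
            obtain ⟨q, hq, rfl⟩ := ht
            rw [Finset.mem_filter, hH', Finset.mem_image] at hq
            obtain ⟨⟨t, ht, rfl⟩, _⟩ := hq
            exact hH t ht i.succ)
          (by
            intro t ht
            rw [hH'', Finset.mem_image] at ht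
            obtain ⟨q, hq, rfl⟩ := ht
            rw [Finset.mem_filter] at hq
            refine ⟨hq.2.2.1, hq.2.2.2.trans (le_of_eq ?_)⟩
            ring)
          (by
            rw [← hc]
            exact h3.le)
        refine h4.trans (Pr_mono hP fun x _ hx => Many_up hJne ?_ hx)
        omega
    · refine (min_le_left _ _).trans ?_
      unfold Sparse at h1
      push Not at h1
      obtain ⟨z', h3⟩ := h1
      have h4 := hW1 W J (le_trans (le_max_left _ _) hW) hb
        (J.filter (fun n => z' ≤ a n ∧ a n ≤ z' + ρ * W)) z' (Finset.filter_subset _ _)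
        (fun n hn => (Finset.mem_filter.1 hn).2) h3.le
      exact h4.trans (Pr_mono hP fun x _ hx => Many_up hJne (by omega) hx)

/-! ### The blocks -/

/-- infinitely many scales at which `w` grows polynomially -/
lemma good_scales (w : ℕ → ℕ) (hw : Monotone w) (hw' : ∀ b, ∃ n, b ≤ w n) (C h : ℕ)
    (hC : ∀ n, w n ≤ C * (n + 1) ^ h) (i0 : ℕ) :
    ∃ i ≥ i0, w ((h + 1) ^ (i + 1)) ≤ 2 * (h + 1) ^ h * w ((h + 1) ^ i) := by
  by_contra hcon
  push Not at hcon
  rcases Nat.eq_zero_or_pos h with rfl | hh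
  · obtain ⟨n, hn⟩ := hw' (C + 1)
    have := hC n
    simp at this
    omega
  -- enlarge `i0` so that `w` is positive
  obtain ⟨n1, hn1⟩ := hw' 1
  set i1 := max i0 n1 with hi1
  have hbig : n1 ≤ (h + 1) ^ i1 := by
    have h1 : i1 < (h + 1) ^ i1 := Nat.lt_pow_self (by omega)
    have h2 : n1 ≤ i1 := le_max_right _ _
    omega
  have hpos : 1 ≤ w ((h + 1) ^ i1) := hn1.trans (hw hbig)
  have hgrow : ∀ j, (2 * (h + 1) ^ h) ^ j ≤ w ((h + 1) ^ (i1 + j)) := by
    intro j
    induction j with
    | zero => simpa using hpos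
    | succ j ih =>
      have h1 := hcon (i1 + j) (le_trans (le_max_left _ _) (Nat.le_add_right _ _))
      rw [pow_succ, mul_comm]
      calc 2 * (h + 1) ^ h * (2 * (h + 1) ^ h) ^ j
          ≤ 2 * (h + 1) ^ h * w ((h + 1) ^ (i1 + j)) := Nat.mul_le_mul_left _ ih
        _ ≤ w ((h + 1) ^ (i1 + (j + 1))) := by
            have : i1 + (j + 1) = i1 + j + 1 := by ring
            rw [this]
            exact h1.le
  -- contradiction with the polynomial bound
  set D := C * 2 ^ h * ((h + 1) ^ h) ^ i1 with hD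
  have h3 : ∀ j, 2 ^ j ≤ D := by
    intro j
    have h4 := (hgrow j).trans (hC _)
    have h5 : (h + 1) ^ (i1 + j) + 1 ≤ 2 * (h + 1) ^ (i1 + j) := by
      have : 0 < (h + 1) ^ (i1 + j) := Nat.pow_pos (by omega)
      omega
    have h6 : C * ((h + 1) ^ (i1 + j) + 1) ^ h ≤ C * (2 * (h + 1) ^ (i1 + j)) ^ h :=
      Nat.mul_le_mul_left _ (Nat.pow_le_pow_left h5 h)
    have h7 : C * (2 * (h + 1) ^ (i1 + j)) ^ h = D * ((h + 1) ^ h) ^ j := by
      rw [hD, mul_pow, ← pow_mul, ← pow_mul, ← pow_mul]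
      have : (i1 + j) * h = h * i1 + h * j := by ring
      rw [this, pow_add]
      ring
    have h8 : 2 ^ j * ((h + 1) ^ h) ^ j ≤ D * ((h + 1) ^ h) ^ j := by
      rw [← mul_pow]
      calc (2 * (h + 1) ^ h) ^ j ≤ _ := h4
        _ ≤ _ := h6
        _ = _ := h7
    exact Nat.le_of_mul_le_mul_right h8 (Nat.pow_pos (Nat.pow_pos (by omega)))
  have h9 := h3 D
  have h10 : D < 2 ^ D := Nat.lt_two_pow_self
  omega

/-- the block at scale `N` -/
def blk (h N : ℕ) : Finset ℕ := Finset.Ico N ((h + 1) * N)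

/-- **One block.** -/
lemma one_block (hP : Pert μ w B ε) (K k C : ℕ) (hK : 1 ≤ K) (hk : 1 ≤ k)
    (ha : ∀ n, a n ≤ C * (n + 1) ^ (k + 1)) (hw : Monotone w)
    (hwC : ∀ n, w n ≤ C * (n + 1) ^ (k + 1)) (ρ : ℕ) :
    ∃ p > 0, ∃ W0 : ℕ, ∀ N, 1 ≤ N → W0 ≤ w N → 1 ≤ w N → w ((k + 1 + 1) * N) ≤ ρ * w N →
      p ≤ Pr μ ε (Many a (blk (k + 1) N) (k + 1) K) := by
  classical
  set D : ℕ := (k + 1) * (C * (k + 1 + 1) ^ (k + 1)) with hD
  set κ : ℝ := 1 / (D + C * 2 ^ (k + 1) + 1) with hκ
  have hκ0 : 0 < κ := by rw [hκ]; positivity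
  obtain ⟨p, hp, W0, hW0⟩ := tuples (a := a) hP ρ K hK k 1 κ hκ0
  refine ⟨p, hp, W0, ?_⟩
  intro N hN hWN hW1 hρ
  have hmax : max (k + 1) 2 = k + 1 := by omega
  rw [hmax] at hW0
  have hb : Block w (blk (k + 1) N) (w N) ρ := by
    refine ⟨hW1, ?_, ?_⟩
    · intro n hn
      unfold blk at hn
      rw [Finset.mem_Ico] at hn
      exact hw hn.1
    · intro n hn
      unfold blk at hn
      rw [Finset.mem_Ico] at hn
      exact (hw hn.2.le).trans hρ
  set G : Fin (k + 1) → Finset ℕ := fun i => Finset.Ico ((i + 1) * N) ((i + 2) * N) with hG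
  set S : Finset (Fin (k + 1) → ℕ) := Fintype.piFinset G with hS
  have hScard : S.card = N ^ (k + 1) := by
    rw [hS, Fintype.card_piFinset]
    have h1 : ∀ i : Fin (k + 1), (G i).card = N := by
      intro i
      rw [hG]
      simp only [Nat.card_Ico]
      rw [← Nat.sub_mul]
      have : (i : ℕ) + 2 - (i + 1) = 1 := by omega
      rw [this, one_mul]
    rw [Finset.prod_congr rfl (fun i _ => h1 i)]
    simp
  have hSmem : ∀ t ∈ S, ∀ i, t i ∈ G i := by
    intro t ht i
    rw [hS, Fintype.mem_piFinset] at ht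
    exact ht i
  have hGsub : ∀ i, G i ⊆ blk (k + 1) N := by
    intro i n hn
    rw [hG] at hn
    simp only [Finset.mem_Ico] at hn
    unfold blk
    rw [Finset.mem_Ico]
    constructor
    · nlinarith [hn.1, Nat.zero_le (i : ℕ)]
    · have h1 : ((i : ℕ) + 2) * N ≤ (k + 1 + 1) * N := by
        apply Nat.mul_le_mul_right
        have := i.2
        omega
      omega
  have hGdis : ∀ i j, i ≠ j → Disjoint (G i) (G j) := by
    intro i j hij
    rw [Finset.disjoint_left]
    intro n hn hn'
    rw [hG] at hn hn'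
    simp only [Finset.mem_Ico] at hn hn'
    apply hij
    have h1 : (i : ℕ) + 1 < j + 2 := by
      by_contra hc
      push Not at hc
      have := Nat.mul_le_mul_right N hc
      omega
    have h2 : (j : ℕ) + 1 < i + 2 := by
      by_contra hc
      push Not at hc
      have := Nat.mul_le_mul_right N hc
      omega
    exact Fin.ext (by omega)
  -- the sums
  have hsum : ∀ t ∈ S, ∑ i, a (t i) ≤ D * N ^ (k + 1) := by
    intro t ht
    calc ∑ i, a (t i) ≤ ∑ _i : Fin (k + 1), C * ((k + 1 + 1) * N) ^ (k + 1) := by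
          apply Finset.sum_le_sum
          intro i _
          refine (ha _).trans (Nat.mul_le_mul_left _ (Nat.pow_le_pow_left ?_ _))
          have h1 := hGsub i (hSmem t ht i)
          unfold blk at h1
          rw [Finset.mem_Ico] at h1
          exact h1.2
      _ = D * N ^ (k + 1) := by
          rw [Finset.sum_const, Finset.card_univ, Fintype.card_fin, smul_eq_mul, hD, mul_pow]
          ring
  -- pigeonhole
  have hfib := Finset.exists_le_card_fiber_of_nsmul_le_card_of_maps_to (s := S)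
    (t := Finset.range (D * N ^ (k + 1) / w N + 1)) (f := fun t => (∑ i, a (t i)) / w N)
    (b := κ * (w N : ℝ)) (by
      intro t ht
      rw [Finset.mem_range]
      exact Nat.lt_succ_of_le (Nat.div_le_div_right (hsum t ht)))
    ⟨0, Finset.mem_range.2 (Nat.succ_pos _)⟩ (by
      rw [Finset.card_range, nsmul_eq_mul, hScard]
      have hWr : (0 : ℝ) < w N := by exact_mod_cast hW1
      have h1 : ((D * N ^ (k + 1) / w N : ℕ) : ℝ) * w N ≤ D * N ^ (k + 1) := by
        exact_mod_cast Nat.div_mul_le_self (D * N ^ (k + 1)) (w N)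
      have h2 : (w N : ℝ) ≤ C * 2 ^ (k + 1) * N ^ (k + 1) := by
        have h3 : w N ≤ C * (2 * N) ^ (k + 1) :=
          (hwC N).trans (Nat.mul_le_mul_left _ (Nat.pow_le_pow_left (by omega) _))
        have h4 : C * (2 * N) ^ (k + 1) = C * 2 ^ (k + 1) * N ^ (k + 1) := by
          rw [mul_pow]; ring
        rw [h4] at h3
        exact_mod_cast h3
      push_cast
      calc ((D * N ^ (k + 1) / w N : ℕ) + 1 : ℝ) * (κ * w N)
          = κ * (((D * N ^ (k + 1) / w N : ℕ) : ℝ) * w N + w N) := by ring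
        _ ≤ κ * ((D + C * 2 ^ (k + 1) + 1) * N ^ (k + 1)) := by
            apply mul_le_mul_of_nonneg_left _ hκ0.le
            have h5 : (0 : ℝ) ≤ (N : ℝ) ^ (k + 1) := by positivity
            nlinarith
        _ = N ^ (k + 1) := by
            rw [hκ]
            field_simp)
  obtain ⟨q, _, hq⟩ := hfib
  apply hW0 (w N) (blk (k + 1) N) hWN hb G (q * w N) _ hGsub hGdis
    (fun t ht => hSmem t (Finset.mem_filter.1 ht).1) _ hq
  intro t ht
  rw [Finset.mem_filter] at ht
  have h1 : (∑ i, a (t i)) / w N = q := ht.2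
  have h2 := Nat.div_mul_le_self (∑ i, a (t i)) (w N)
  have h3 := Nat.lt_div_mul_add (a := ∑ i, a (t i)) (b := w N) hW1
  rw [h1] at h2 h3
  constructor
  · exact h2
  · omega

/-- independence of the blocks -/
lemma blocks_indep (hP : Pert μ w B ε) (h K : ℕ) {p : ℝ} (hp1 : p ≤ 1) (S : Finset ℕ)
    (hS : ∀ i ∈ S, p ≤ Pr μ ε (Many a (blk h ((h + 1) ^ i)) h K)) :
    Pr μ ε (fun x => ∀ i ∈ S, ¬ Many a (blk h ((h + 1) ^ i)) h K x) ≤ (1 - p) ^ S.card := by
  classical
  induction S using Finset.induction_on with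
  | empty =>
    simp only [Finset.card_empty, pow_zero]
    exact Pr_le_one hP _
  | insert j S hj ih =>
    have ih' := ih fun i hi => hS i (Finset.mem_insert_of_mem hi)
    rw [Finset.card_insert_of_notMem hj, pow_succ]
    have hdis : Disjoint (S.biUnion fun i => blk h ((h + 1) ^ i)) (blk h ((h + 1) ^ j)) := by
      rw [Finset.disjoint_biUnion_left]
      intro i hi
      have hij : i ≠ j := fun h => hj (h ▸ hi)
      rw [Finset.disjoint_left]
      intro n hn hn'
      unfold blk at hn hn'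
      rw [Finset.mem_Ico, ← pow_succ'] at hn hn'
      rcases Nat.lt_or_gt_of_ne hij with h1 | h1
      · have h2 : (h + 1) ^ (i + 1) ≤ (h + 1) ^ j :=
          Nat.pow_le_pow_right (Nat.succ_pos h) (Nat.succ_le_of_lt h1)
        omega
      · have h2 : (h + 1) ^ (j + 1) ≤ (h + 1) ^ i :=
          Nat.pow_le_pow_right (Nat.succ_pos h) (Nat.succ_le_of_lt h1)
        omega
    have hE : Pr μ ε (fun x => ∀ i ∈ insert j S, ¬ Many a (blk h ((h + 1) ^ i)) h K x) =
        Pr μ ε (fun x => (∀ i ∈ S, ¬ Many a (blk h ((h + 1) ^ i)) h K x) ∧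
          ¬ Many a (blk h ((h + 1) ^ j)) h K x) := by
      apply Pr_congr hP
      intro x _
      rw [Finset.forall_mem_insert, and_comm]
    rw [hE, Pr_and hP hdis]
    · apply mul_le_mul ih' _ (Pr_nonneg _) (pow_nonneg (by linarith) _)
      rw [Pr_not hP (dep_Many a _ h K)]
      have := hS j (Finset.mem_insert_self j S)
      linarith
    · exact DepOn.all fun i => DepOn.all fun hi =>
        ((dep_Many a _ h K).mono (Finset.subset_biUnion_of_mem
          (fun i => blk h ((h + 1) ^ i)) hi)).not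
    · exact (dep_Many a _ h K).not

/-- **Main theorem.** -/
theorem slow (hP : Pert μ w B ε) (h C : ℕ) (hh : 2 ≤ h) (ha : ∀ n, a n ≤ C * (n + 1) ^ h)
    (hw : Monotone w) (hw' : ∀ b, ∃ n, b ≤ w n) (hwC : ∀ n, w n ≤ C * (n + 1) ^ h) :
    ∀ᵐ ω ∂μ, ∀ K, ∃ m, K ≤ r (Set.range fun n => a n + ε n ω) h m := by
  classical
  have := hP.prob
  rw [ae_all_iff]
  intro K0
  set K := K0 + 1 with hK
  obtain ⟨k, rfl⟩ : ∃ k, h = k + 1 := ⟨h - 1, by omega⟩
  obtain ⟨p, hp, W0, hW0⟩ := one_block (a := a) hP K k C (by omega) (by omega) ha hw hwC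
    (2 * (k + 1 + 1) ^ (k + 1))
  -- infinitely many good scales
  set good : Set ℕ := {i | p ≤ Pr μ ε (Many a (blk (k + 1) ((k + 1 + 1) ^ i)) (k + 1) K)} with hgood
  have hinf : good.Infinite := by
    rw [Set.infinite_iff_exists_gt]
    intro i0
    obtain ⟨n1, hn1⟩ := hw' (W0 + 1)
    obtain ⟨i, hi, h1⟩ := good_scales w hw hw' C (k + 1) hwC (max (i0 + 1) n1)
    have h2 : n1 ≤ (k + 1 + 1) ^ i := by
      have h3 : i < (k + 1 + 1) ^ i := Nat.lt_pow_self (by omega)
      have h4 : n1 ≤ i := le_trans (le_max_right _ _) hi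
      omega
    have h3 : W0 + 1 ≤ w ((k + 1 + 1) ^ i) := hn1.trans (hw h2)
    refine ⟨i, ?_, ?_⟩
    · apply hW0 _ (Nat.one_le_pow _ _ (by omega)) (by omega) (by omega)
      rw [← pow_succ']
      exact h1
    · have : i0 + 1 ≤ i := le_trans (le_max_left _ _) hi
      omega
  have hp1 : p ≤ 1 := by
    obtain ⟨i, hi⟩ := hinf.nonempty
    exact le_trans hi (Pr_le_one hP _)
  -- the bad event
  set bad : Set Ω := {ω | ¬ ∃ m, K0 ≤ r (Set.range fun n => a n + ε n ω) (k + 1) m} with hbad
  have hbound : ∀ M : ℕ, μ.real bad ≤ (1 - p) ^ M := by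
    intro M
    obtain ⟨S, hS, hSc⟩ := hinf.exists_subset_card_eq M
    have h1 := blocks_indep (a := a) hP (k + 1) K hp1 S (fun i hi => hS hi)
    rw [hSc] at h1
    refine le_trans ?_ h1
    unfold Pr
    refine measureReal_mono ?_ (measure_ne_top _ _)
    intro ω hω i _ hM
    apply hω
    obtain ⟨m, hm⟩ := hM
    refine ⟨m, le_trans (Nat.le_succ K0) (hm.trans (r_mono ?_ _ _))⟩
    rintro v ⟨n, _, rfl⟩
    exact ⟨n, rfl⟩
  have hzero : μ.real bad = 0 := by
    apply le_antisymm _ measureReal_nonneg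
    have h1 : Filter.Tendsto (fun M : ℕ => (1 - p) ^ M) Filter.atTop (nhds 0) :=
      tendsto_pow_atTop_nhds_zero_of_lt_one (by linarith) (by linarith)
    exact ge_of_tendsto' h1 hbound
  rw [ae_iff]
  exact (measureReal_eq_zero_iff).1 hzero

end Pool.Agent.W167.ET
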