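import Pool.Agent.W167.ET.Comb

set_option autoImplicit false

/-! Coincidences in sparse blocks, and the cluster lemma. -/

namespace Pool.Agent.W167.ET

open MeasureTheory ProbabilityTheory Finset

/-- all shifts in the block `J` have sizes between `W` and `ρ W` -/
structure Block (w : ℕ → ℕ) (J : Finset ℕ) (W ρ : ℕ) : Prop where
  one : 1 ≤ W
  lo : ∀ n ∈ J, W ≤ w n
  hi : ∀ n ∈ J, w n ≤ ρ * W

/-- windows of length `ρ W` contain at most `η W` elements -/
def Sparse (a : ℕ → ℕ) (J : Finset ℕ) (W ρ : ℕ) (η : ℝ) : Prop :=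
  ∀ z, ((J.filter (fun n => z ≤ a n ∧ a n ≤ z + ρ * W)).card : ℝ) ≤ η * W

lemma hits {A : Set ℕ} {h m : ℕ} (V : Finset ℕ) (f : ℕ → Multiset ℕ)
    (hf : ∀ v ∈ V, f v ∈ msets A h m ∧ v ∈ f v) : V.card ≤ h * r A h m := by
  classical
  apply card_le_mul_r A h m h V f (fun v hv => (hf v hv).1)
  intro M
  by_cases hne : (V.filter (fun i => f i = M)).Nonempty
  · obtain ⟨v0, hv0⟩ := hne
    rw [Finset.mem_filter] at hv0
    have h1 : V.filter (fun i => f i = M) ⊆ M.toFinset := by
      intro v hv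
      rw [Finset.mem_filter] at hv
      rw [Multiset.mem_toFinset, ← hv.2]
      exact (hf v hv.1).2
    refine (Finset.card_le_card h1).trans ((Multiset.toFinset_card_le M).trans ?_)
    rw [← hv0.2]
    exact le_of_eq (hf v0 hv0.1).1.1
  · rw [Finset.not_nonempty_iff_eq_empty] at hne
    rw [hne]
    simp

lemma r_mono {A A' : Set ℕ} (hA : A ⊆ A') (h m : ℕ) : r A h m ≤ r A' h m := by
  apply Set.ncard_le_ncard _ (msets_finite A' h m)
  rintro s ⟨h1, h2, h3⟩
  exact ⟨h1, fun v hv => hA (h2 v hv), h3⟩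

lemma image_card_add (T : Finset ℕ) (f : ℕ → ℕ) :
    T.card ≤ (T.image f).card +
      ((T ×ˢ T).filter (fun p => p.1 ≠ p.2 ∧ f p.1 = f p.2)).card := by
  classical
  set N := T.filter (fun n => ∃ n' ∈ T, n ≠ n' ∧ f n = f n') with hN
  have h1 : (T \ N).card ≤ (T.image f).card := by
    have h2 : (T \ N).card = ((T \ N).image f).card := by
      rw [Finset.card_image_of_injOn]
      intro n hn n' hn' hf
      by_contra hne
      rw [Finset.mem_coe, Finset.mem_sdiff] at hn hn'
      apply hn.2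
      rw [hN, Finset.mem_filter]
      exact ⟨hn.1, n', hn'.1, hne, hf⟩
    rw [h2]
    exact Finset.card_le_card (Finset.image_subset_image Finset.sdiff_subset)
  have h3 : N.card ≤ ((T ×ˢ T).filter (fun p => p.1 ≠ p.2 ∧ f p.1 = f p.2)).card := by
    have h4 : N ⊆ ((T ×ˢ T).filter (fun p => p.1 ≠ p.2 ∧ f p.1 = f p.2)).image Prod.fst := by
      intro n hn
      rw [hN, Finset.mem_filter] at hn
      obtain ⟨h5, n', h6, h7, h8⟩ := hn
      rw [Finset.mem_image]
      exact ⟨(n, n'), Finset.mem_filter.2 ⟨Finset.mem_product.2 ⟨h5, h6⟩, h7, h8⟩, rfl⟩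
    exact (Finset.card_le_card h4).trans Finset.card_image_le
  have h9 : (T \ N).card + N.card = T.card :=
    Finset.card_sdiff_add_card_eq_card (Finset.filter_subset _ _)
  omega

variable {Ω : Type*} [MeasurableSpace Ω] {μ : Measure Ω} {w : ℕ → ℕ} {B : ℝ} {ε : ℕ → Ω → ℕ}
  {a : ℕ → ℕ} {J : Finset ℕ} {W ρ : ℕ}

lemma one_le_B (hP : Pert μ w B ε) : 1 ≤ B := by
  have h := Pr_sum_one hP 0 (w 0 + 1) (Nat.lt_succ_self _)
  have h2 : ∑ j ∈ range (w 0 + 1), Pr μ ε (fun x => x 0 = j) ≤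
      ∑ _j ∈ range (w 0 + 1), B / (w 0 + 1) := Finset.sum_le_sum fun j _ => Pr_dens hP 0 j
  rw [h, Finset.sum_const, Finset.card_range, nsmul_eq_mul] at h2
  push_cast at h2
  have h3 : (0 : ℝ) < w 0 + 1 := by positivity
  rwa [mul_div_cancel₀ _ h3.ne'] at h2

lemma dens_block (hP : Pert μ w B ε) (hb : Block w J W ρ) {n : ℕ} (hn : n ∈ J) :
    B / (w n + 1) ≤ B / (W + 1) := by
  have h1 := one_le_B hP
  have h2 : (W : ℝ) ≤ w n := by exact_mod_cast hb.lo n hn
  apply div_le_div_of_nonneg_left (by linarith) (by positivity) (by linarith)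

/-- the sum over all near indices of the coincidence probabilities -/
lemma coinc_sum (hP : Pert μ w B ε) (hb : Block w J W ρ) {η : ℝ}
    (hs : Sparse a J W ρ η) {n : ℕ} (hn : n ∈ J) (F : Finset ℕ) (hF : F ⊆ J) (T : ℕ → Prop) :
    Pr μ ε (fun x => ∃ n' ∈ F, n' ≠ n ∧ a n + x n = a n' + x n' ∧ T (x n)) ≤
      2 * η * B * Pr μ ε (fun x => T (x n)) := by
  classical
  have hB := one_le_B hP
  set N := (J.filter (fun m => a n ≤ a m ∧ a m ≤ a n + ρ * W)) ∪
    (J.filter (fun m => a n - ρ * W ≤ a m ∧ a m ≤ (a n - ρ * W) + ρ * W)) with hN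
  have hNc : (N.card : ℝ) ≤ 2 * η * W := by
    have h1 : N.card ≤ _ := Finset.card_union_le _ _
    have h2 := hs (a n)
    have h3 := hs (a n - ρ * W)
    have h4 : (N.card : ℝ) ≤ ((J.filter (fun m => a n ≤ a m ∧ a m ≤ a n + ρ * W)).card : ℝ) +
      ((J.filter (fun m => a n - ρ * W ≤ a m ∧ a m ≤ (a n - ρ * W) + ρ * W)).card : ℝ) := by
      exact_mod_cast h1
    linarith
  have h1 : Pr μ ε (fun x => ∃ n' ∈ F, n' ≠ n ∧ a n + x n = a n' + x n' ∧ T (x n)) ≤
      Pr μ ε (fun x => ∃ n' ∈ (N.filter (fun n' => n' ≠ n ∧ n' ∈ J)),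
        a n + x n = a n' + x n' ∧ T (x n)) := by
    apply Pr_mono hP
    rintro x hx ⟨n', h1, h2, h3, h4⟩
    refine ⟨n', ?_, h3, h4⟩
    rw [Finset.mem_filter]
    refine ⟨?_, h2, hF h1⟩
    have h5 := hx n
    have h6 := hx n'
    have h7 := hb.hi n hn
    have h8 := hb.hi n' (hF h1)
    rw [hN, Finset.mem_union, Finset.mem_filter, Finset.mem_filter]
    by_cases h9 : a n ≤ a n'
    · left
      exact ⟨hF h1, h9, by omega⟩
    · right
      exact ⟨hF h1, by omega, by omega⟩
  refine h1.trans ((Pr_exists_le _ _ hP).trans ?_)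
  have h0 := Pr_nonneg (μ := μ) (ε := ε) (fun x => T (x n))
  have hW : (0 : ℝ) < W + 1 := by positivity
  calc ∑ n' ∈ N.filter (fun n' => n' ≠ n ∧ n' ∈ J),
        Pr μ ε (fun x => a n + x n = a n' + x n' ∧ T (x n))
      ≤ ∑ n' ∈ N.filter (fun n' => n' ≠ n ∧ n' ∈ J),
        Pr μ ε (fun x => T (x n)) * (B / (W + 1)) := by
        apply Finset.sum_le_sum
        intro n' hn'
        rw [Finset.mem_filter] at hn'
        refine (Pr_coinc hP (by linarith) (Ne.symm hn'.2.1) (a n) (a n') T).trans ?_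
        exact mul_le_mul_of_nonneg_left (dens_block hP hb hn'.2.2) h0
    _ = ((N.filter (fun n' => n' ≠ n ∧ n' ∈ J)).card : ℝ) *
        (Pr μ ε (fun x => T (x n)) * (B / (W + 1))) := by
        rw [Finset.sum_const, nsmul_eq_mul]
    _ ≤ (2 * η * W) * (Pr μ ε (fun x => T (x n)) * (B / (W + 1))) := by
        apply mul_le_mul_of_nonneg_right _ (by positivity)
        refine le_trans ?_ hNc
        exact_mod_cast Finset.card_le_card (Finset.filter_subset _ _)
    _ ≤ 2 * η * B * Pr μ ε (fun x => T (x n)) := by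
        have hη : 0 ≤ 2 * η * W := le_trans (Nat.cast_nonneg _) hNc
        have hW1 : (1 : ℝ) ≤ W := by exact_mod_cast hb.one
        have hη' : 0 ≤ η := by
          by_contra hcon
          push Not at hcon
          nlinarith
        have h5 : (W : ℝ) * (B / (W + 1)) ≤ B := by
          rw [mul_div_assoc', div_le_iff₀ hW]
          nlinarith
        calc (2 * η * W) * (Pr μ ε (fun x => T (x n)) * (B / (W + 1)))
            = 2 * η * Pr μ ε (fun x => T (x n)) * (W * (B / (W + 1))) := by ring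
          _ ≤ 2 * η * Pr μ ε (fun x => T (x n)) * B := by
              apply mul_le_mul_of_nonneg_left h5 (by positivity)
          _ = _ := by ring

/-- **The cluster lemma.** -/
lemma cluster (hP : Pert μ w B ε) (ρ c K : ℕ) {δ : ℝ} (hδ : 0 < δ) :
    ∃ W0 : ℕ, ∀ (W : ℕ) (J : Finset ℕ), W0 ≤ W → Block w J W ρ →
      ∀ (T : Finset ℕ) (z : ℕ), T ⊆ J → (∀ n ∈ T, z ≤ a n ∧ a n ≤ z + c * W) →
      δ * W ≤ T.card → 1 / 2 ≤ Pr μ ε (Many a J 2 K) := by
  classical
  have hB := one_le_B hP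
  set δ' := min δ (1 / (4 * B)) with hδ'
  have hδ'0 : 0 < δ' := lt_min hδ (by positivity)
  have hδ'1 : δ' ≤ δ := min_le_left _ _
  have hδ'2 : δ' * B ≤ 1 / 4 := by
    have h1 : δ' ≤ 1 / (4 * B) := min_le_right _ _
    calc δ' * B ≤ 1 / (4 * B) * B := mul_le_mul_of_nonneg_right h1 (by linarith)
      _ = 1 / 4 := by field_simp
  obtain ⟨W0, hW0⟩ := exists_nat_ge (32 * K * (2 * (c + ρ) + 1) / δ' ^ 2 + 2 / δ')
  refine ⟨W0 + 1, fun W J hW hb T z hT hz hcard => ?_⟩
  have hWr : 32 * K * (2 * (c + ρ) + 1) / δ' ^ 2 + 2 / δ' ≤ (W : ℝ) := by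
    refine hW0.trans ?_
    exact_mod_cast (Nat.le_succ W0).trans hW
  have hA : 2 / δ' ≤ (W : ℝ) := by
    refine le_trans ?_ hWr
    have : 0 ≤ 32 * (K : ℝ) * (2 * (c + ρ) + 1) / δ' ^ 2 := by positivity
    linarith
  have hA2 : 32 * K * (2 * (c + ρ) + 1) / δ' ^ 2 ≤ (W : ℝ) := by
    refine le_trans ?_ hWr
    have : 0 ≤ 2 / δ' := by positivity
    linarith
  rw [div_le_iff₀ hδ'0] at hA
  rw [div_le_iff₀ (by positivity)] at hA2
  -- choose a subcluster
  set k := ⌊δ' * W⌋₊ with hk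
  have hk1 : (k : ℝ) ≤ δ' * W := Nat.floor_le (by positivity)
  have hk2 : δ' * W < k + 1 := Nat.lt_floor_add_one _
  have hk3 : δ' * W / 2 ≤ k := by nlinarith
  have hkT : k ≤ T.card := by
    have : (k : ℝ) ≤ T.card := by nlinarith
    exact_mod_cast this
  obtain ⟨T', hT', hT'c⟩ := Finset.exists_subset_card_eq hkT
  have hT'J : T' ⊆ J := hT'.trans hT
  have hkpos : (0 : ℝ) < k := by nlinarith
  -- the coincidences
  set s := (T' ×ˢ T').filter (fun p => p.1 ≠ p.2) with hs
  have hM := Pr_markov hP (S := J) s (fun p x => a p.1 + x p.1 = a p.2 + x p.2) (by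
    intro p hp
    rw [hs, Finset.mem_filter, Finset.mem_product] at hp
    exact DepOn.coord2 (hT'J hp.1.1) (hT'J hp.1.2) (fun i j => a p.1 + i = a p.2 + j)) ((k : ℝ) / 2)
  have hsum : ∑ p ∈ s, Pr μ ε (fun x => a p.1 + x p.1 = a p.2 + x p.2) ≤ k / 4 := by
    calc ∑ p ∈ s, Pr μ ε (fun x => a p.1 + x p.1 = a p.2 + x p.2)
        ≤ ∑ p ∈ s, B / (W + 1) := by
          apply Finset.sum_le_sum
          intro p hp
          rw [hs, Finset.mem_filter, Finset.mem_product] at hp
          have h1 := Pr_coinc hP (by linarith) hp.2 (a p.1) (a p.2) (fun _ => True)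
          rw [Pr_true hP (fun _ _ => trivial), one_mul] at h1
          refine le_trans ?_ (h1.trans (dens_block hP hb (hT'J hp.1.2)))
          exact Pr_mono hP fun x _ h => ⟨h, trivial⟩
      _ = (s.card : ℝ) * (B / (W + 1)) := by rw [Finset.sum_const, nsmul_eq_mul]
      _ ≤ ((k : ℝ) * k) * (B / (W + 1)) := by
          apply mul_le_mul_of_nonneg_right _ (by positivity)
          have h2 : s.card ≤ T'.card * T'.card := by
            rw [← Finset.card_product]
            exact Finset.card_le_card (Finset.filter_subset _ _)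
          rw [hT'c] at h2
          exact_mod_cast h2
      _ ≤ k / 4 := by
          rw [mul_div_assoc', div_le_iff₀ (by positivity)]
          have h3 : (k : ℝ) * B ≤ W / 4 := by nlinarith
          nlinarith
  have hbad : Pr μ ε (fun x => (k : ℝ) / 2 ≤
      ((s.filter (fun p => a p.1 + x p.1 = a p.2 + x p.2)).card : ℝ)) ≤ 1 / 2 := by
    have h1 : (k : ℝ) / 2 * Pr μ ε (fun x => (k : ℝ) / 2 ≤
      ((s.filter (fun p => a p.1 + x p.1 = a p.2 + x p.2)).card : ℝ)) ≤ k / 4 := by
      refine le_trans (le_of_eq ?_) (hM.trans hsum)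
      congr!
    by_contra hcon
    push Not at hcon
    nlinarith
  have hdep : DepOn J (fun x => (k : ℝ) / 2 ≤
      ((s.filter (fun p => a p.1 + x p.1 = a p.2 + x p.2)).card : ℝ)) := by
    intro x y hxy
    have : s.filter (fun p => a p.1 + x p.1 = a p.2 + x p.2) =
        s.filter (fun p => a p.1 + y p.1 = a p.2 + y p.2) := by
      apply Finset.filter_congr
      intro p hp
      rw [hs, Finset.mem_filter, Finset.mem_product] at hp
      rw [hxy _ (hT'J hp.1.1), hxy _ (hT'J hp.1.2)]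
    simp only [this]
  have h4 := Pr_not hP hdep
  have h5 : Pr μ ε (fun x => ¬ ((k : ℝ) / 2 ≤
      ((s.filter (fun p => a p.1 + x p.1 = a p.2 + x p.2)).card : ℝ))) ≤
      Pr μ ε (Many a J 2 K) := by
    apply Pr_mono hP
    intro x hx h6
    push Not at h6
    have h7 := image_card_add T' (fun n => a n + x n)
    have h8 : (T' ×ˢ T').filter (fun p => p.1 ≠ p.2 ∧ a p.1 + x p.1 = a p.2 + x p.2) =
        s.filter (fun p => a p.1 + x p.1 = a p.2 + x p.2) := by
      rw [hs, Finset.filter_filter]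
    rw [h8, hT'c] at h7
    have h9 : (k : ℝ) ≤ ((T'.image (fun n => a n + x n)).card : ℝ) +
      ((s.filter (fun p => a p.1 + x p.1 = a p.2 + x p.2)).card : ℝ) := by exact_mod_cast h7
    have h10 : (k : ℝ) / 2 ≤ ((T'.image (fun n => a n + x n)).card : ℝ) := by linarith
    apply Many_of_dense a J x (T'.image (fun n => a n + x n)) z ((c + ρ) * W) K
    · intro v hv
      rw [Finset.mem_image] at hv
      obtain ⟨n, hn, rfl⟩ := hv
      exact ⟨n, hT'J hn, rfl⟩
    · intro v hv
      rw [Finset.mem_image] at hv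
      obtain ⟨n, hn, rfl⟩ := hv
      have h11 := hz n (hT' hn)
      have h12 := hx n
      have h13 := hb.hi n (hT'J hn)
      constructor
      · omega
      · nlinarith
    · have h14 : (2 * K * (2 * ((c + ρ) * W) + 1) : ℝ) ≤
          ((T'.image (fun n => a n + x n)).card : ℝ) ^ 2 := by
        have h15 : δ' * W / 4 ≤ ((T'.image (fun n => a n + x n)).card : ℝ) := by linarith
        have h16 : (δ' * W / 4) ^ 2 ≤ ((T'.image (fun n => a n + x n)).card : ℝ) ^ 2 := by
          apply pow_le_pow_left₀ (by positivity) h15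
        refine le_trans ?_ h16
        have hW1 : (1 : ℝ) ≤ W := by exact_mod_cast hb.one
        have h17 : (2 * K * (2 * ((c + ρ) * W) + 1) : ℝ) ≤ 2 * K * ((2 * (c + ρ) + 1) * W) := by
          have h18 : (0 : ℝ) ≤ 2 * K := by positivity
          apply mul_le_mul_of_nonneg_left _ h18
          linarith
        refine h17.trans ?_
        have h19 : (32 * K * (2 * (c + ρ) + 1) : ℝ) * W ≤ W * δ' ^ 2 * W := by
          apply mul_le_mul_of_nonneg_right hA2 (by linarith)
        nlinarith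
      exact_mod_cast h14
  linarith

end Pool.Agent.W167.ET
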