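import Pool.Agent.W167.ET.Near

set_option autoImplicit false

/-! Pieces of the sparse step. -/

namespace Pool.Agent.W167.ET

open MeasureTheory ProbabilityTheory Finset

/-- no other index of `R` has the same shifted value -/
def clean (a : ℕ → ℕ) (R : Finset ℕ) (y : ℕ → ℕ) (j : ℕ) : Prop :=
  ∀ j' ∈ R, j' ≠ j → a j + y j ≠ a j' + y j'

lemma dep_clean (a : ℕ → ℕ) {R : Finset ℕ} {j : ℕ} (hj : j ∈ R) :
    DepOn R (fun y => clean a R y j) := by
  intro x y hxy
  unfold clean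
  apply forall_congr'
  intro j'
  apply forall_congr'
  intro hj'
  rw [hxy j hj, hxy j' hj']

open Classical in
/-- the tuples all of whose entries are clean -/
noncomputable def good {k : ℕ} (a : ℕ → ℕ) (R : Finset ℕ) (H : Finset (ℕ × (Fin k → ℕ)))
    (y : ℕ → ℕ) : Finset (ℕ × (Fin k → ℕ)) :=
  H.filter (fun p => ∀ i, clean a R y (p.2 i))

/-- sum of the shifted values of a tuple -/
def vsum {k : ℕ} (a y : ℕ → ℕ) (t : Fin k → ℕ) : ℕ := ∑ i, (a (t i) + y (t i))

/-- the link sums belonging to `n` -/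
noncomputable def U {k : ℕ} (a : ℕ → ℕ) (R : Finset ℕ) (H : Finset (ℕ × (Fin k → ℕ)))
    (y : ℕ → ℕ) (n : ℕ) : Finset ℕ :=
  ((good a R H y).filter (fun p => p.1 = n)).image (fun p => vsum a y p.2)

lemma mem_U {k : ℕ} {a : ℕ → ℕ} {R : Finset ℕ} {H : Finset (ℕ × (Fin k → ℕ))}
    {y : ℕ → ℕ} {n u : ℕ} : u ∈ U a R H y n ↔
      ∃ t : Fin k → ℕ, (n, t) ∈ H ∧ (∀ i, clean a R y (t i)) ∧ vsum a y t = u := by
  classical
  unfold U good
  rw [Finset.mem_image]
  constructor
  · rintro ⟨p, hp, rfl⟩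
    rw [Finset.mem_filter, Finset.mem_filter] at hp
    refine ⟨p.2, ?_, hp.1.2, rfl⟩
    rw [← hp.2]
    exact hp.1.1
  · rintro ⟨t, h1, h2, rfl⟩
    refine ⟨(n, t), ?_, rfl⟩
    rw [Finset.mem_filter, Finset.mem_filter]
    exact ⟨⟨h1, h2⟩, rfl⟩

lemma card_fib {α β : Type*} [DecidableEq β] (S : Finset α) (f : α → β) (T : Finset β)
    (h : ∀ x ∈ S, f x ∈ T) : S.card = ∑ b ∈ T, (S.filter (fun x => f x = b)).card :=
  Finset.card_eq_sum_card_fiberwise h

/-- multiplicities -/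
lemma mult {k : ℕ} (a : ℕ → ℕ) (R G0 : Finset ℕ) (H : Finset (ℕ × (Fin k → ℕ))) (y : ℕ → ℕ)
    (K : ℕ) (hH : ∀ p ∈ H, p.1 ∈ G0 ∧ ∀ i, p.2 i ∈ R) (hr : ∀ m, r (Img a R y) k m ≤ K) :
    (good a R H y).card ≤ k ^ k * K * ∑ n ∈ G0, (U a R H y n).card := by
  classical
  -- fibres
  have h1 : ∀ n u, ((good a R H y).filter (fun p => p.1 = n ∧ vsum a y p.2 = u)).card ≤
      k ^ k * K := by
    intro n u
    refine le_trans ?_ (Nat.mul_le_mul_left _ (hr u))
    apply card_le_mul_r _ _ _ _ _ (fun p => mset (fun i => a (p.2 i) + y (p.2 i)))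
    · intro p hp
      rw [Finset.mem_filter] at hp
      unfold good at hp
      rw [Finset.mem_filter] at hp
      refine ⟨card_mset _, ?_, ?_⟩
      · intro v hv
        rw [mem_mset] at hv
        obtain ⟨i, rfl⟩ := hv
        exact ⟨p.2 i, (hH p hp.1.1).2 i, rfl⟩
      · rw [sum_mset]
        exact hp.2.2
    · intro M
      set S := ((good a R H y).filter (fun p => p.1 = n ∧ vsum a y p.2 = u)).filter
        (fun p => mset (fun i => a (p.2 i) + y (p.2 i)) = M) with hS
      have h2 : S.card = (S.image (fun p => (fun i => a (p.2 i) + y (p.2 i)))).card := by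
        rw [Finset.card_image_of_injOn]
        intro p hp q hq hpq
        rw [Finset.mem_coe, hS, Finset.mem_filter, Finset.mem_filter] at hp hq
        unfold good at hp hq
        rw [Finset.mem_filter] at hp hq
        have h3 : p.1 = q.1 := hp.1.2.1.trans hq.1.2.1.symm
        have h4 : p.2 = q.2 := by
          funext i
          by_contra hne
          have h5 := hp.1.1.2 i (q.2 i) ((hH q hq.1.1.1).2 i) (Ne.symm hne)
          apply h5
          exact congrFun hpq i
        exact Prod.ext h3 h4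
      rw [h2]
      refine le_trans (Finset.card_le_card ?_)
        (fiber_mset (S.image (fun p => (fun i => a (p.2 i) + y (p.2 i)))) M)
      intro t ht
      rw [Finset.mem_filter]
      refine ⟨ht, ?_⟩
      rw [Finset.mem_image] at ht
      obtain ⟨p, hp, rfl⟩ := ht
      rw [hS, Finset.mem_filter] at hp
      exact hp.2
  have h2 : (good a R H y).card = ∑ n ∈ G0, ∑ u ∈ U a R H y n,
      ((good a R H y).filter (fun p => p.1 = n ∧ vsum a y p.2 = u)).card := by
    have h3 := card_fib (good a R H y) (fun p : ℕ × (Fin k → ℕ) => p.1) G0 (by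
      intro p hp
      unfold good at hp
      rw [Finset.mem_filter] at hp
      exact (hH p hp.1).1)
    rw [h3]
    apply Finset.sum_congr rfl
    intro n _
    have h4 := card_fib ((good a R H y).filter (fun p => p.1 = n))
      (fun p : ℕ × (Fin k → ℕ) => vsum a y p.2) (U a R H y n) (by
      intro p hp
      unfold U
      exact Finset.mem_image_of_mem (fun p : ℕ × (Fin k → ℕ) => vsum a y p.2) hp)
    rw [h4]
    apply Finset.sum_congr rfl
    intro u _
    rw [Finset.filter_filter]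
  rw [h2, Finset.mul_sum]
  apply Finset.sum_le_sum
  intro n _
  calc ∑ u ∈ U a R H y n, ((good a R H y).filter (fun p => p.1 = n ∧ vsum a y p.2 = u)).card
      ≤ ∑ _u ∈ U a R H y n, k ^ k * K := Finset.sum_le_sum fun u _ => h1 n u
    _ = k ^ k * K * (U a R H y n).card := by rw [Finset.sum_const, smul_eq_mul, mul_comm]

variable {Ω : Type*} [MeasurableSpace Ω] {μ : Measure Ω} {w : ℕ → ℕ} {B : ℝ} {ε : ℕ → Ω → ℕ}
  {a : ℕ → ℕ} {J : Finset ℕ} {W ρ : ℕ}

lemma Pr_not_clean (hP : Pert μ w B ε) (hb : Block w J W ρ) {η : ℝ}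
    (hs : Sparse a J W ρ η) {R : Finset ℕ} (hR : R ⊆ J) {j : ℕ} (hj : j ∈ R) :
    Pr μ ε (fun y => ¬ clean a R y j) ≤ 2 * η * B := by
  have h1 := coinc_sum hP hb hs (hR hj) R hR (fun _ => True)
  rw [Pr_true hP (fun _ _ => trivial), mul_one] at h1
  refine le_trans (Pr_mono hP fun x _ h => ?_) h1
  unfold clean at h
  push Not at h
  obtain ⟨j', h2, h3, h4⟩ := h
  exact ⟨j', h2, h3, h4, trivial⟩

/-- half of the tuples are clean with probability at least one half -/
lemma Pr_good {k : ℕ} (hP : Pert μ w B ε) (hb : Block w J W ρ) {η : ℝ}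
    (hs : Sparse a J W ρ η) {R : Finset ℕ} (hR : R ⊆ J) (H : Finset (ℕ × (Fin k → ℕ)))
    (hH : ∀ p ∈ H, ∀ i, p.2 i ∈ R) (hη : 8 * k * η * B ≤ 1) :
    ∃ Y : (ℕ → ℕ) → Prop, DepOn R Y ∧ (∀ y, Y y → H.card ≤ 2 * (good a R H y).card) ∧
      1 / 2 ≤ Pr μ ε Y := by
  classical
  rcases H.eq_empty_or_nonempty with rfl | hne
  · refine ⟨fun _ => True, DepOn.const _, fun _ _ => by simp, ?_⟩
    rw [Pr_true hP (fun _ _ => trivial)]
    norm_num
  set E : (ℕ × (Fin k → ℕ)) → (ℕ → ℕ) → Prop := fun p y => ¬ ∀ i, clean a R y (p.2 i) with hE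
  have hdepE : ∀ p ∈ H, DepOn R (E p) := fun p hp =>
    DepOn.not (DepOn.all fun i => dep_clean a (hH p hp i))
  have hcard : (0 : ℝ) < H.card := by exact_mod_cast hne.card_pos
  have hM := Pr_markov hP (S := R) H E hdepE ((H.card : ℝ) / 2)
  have hsum : ∑ p ∈ H, Pr μ ε (E p) ≤ H.card * (k * (2 * η * B)) := by
    have h1 : ∀ p ∈ H, Pr μ ε (E p) ≤ k * (2 * η * B) := by
      intro p hp
      have h2 : Pr μ ε (E p) ≤ Pr μ ε (fun y => ∃ i ∈ (Finset.univ : Finset (Fin k)),
          ¬ clean a R y (p.2 i)) := by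
        apply Pr_mono hP
        intro x _ h
        simp only [hE] at h
        push Not at h
        obtain ⟨i, hi⟩ := h
        exact ⟨i, Finset.mem_univ i, hi⟩
      refine h2.trans ((Pr_exists_le _ _ hP).trans ?_)
      calc ∑ i : Fin k, Pr μ ε (fun y => ¬ clean a R y (p.2 i)) ≤ ∑ _i : Fin k, (2 * η * B) :=
            Finset.sum_le_sum fun i _ => Pr_not_clean hP hb hs hR (hH p hp i)
        _ = k * (2 * η * B) := by
            rw [Finset.sum_const, Finset.card_univ, Fintype.card_fin, nsmul_eq_mul]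
    calc ∑ p ∈ H, Pr μ ε (E p) ≤ ∑ _p ∈ H, k * (2 * η * B) := Finset.sum_le_sum h1
      _ = _ := by rw [Finset.sum_const, nsmul_eq_mul]
  have hdep : DepOn R (fun x => (H.card : ℝ) / 2 ≤ ((H.filter (fun i => E i x)).card : ℝ)) := by
    intro x y hxy
    have : H.filter (fun p => E p x) = H.filter (fun p => E p y) := by
      apply Finset.filter_congr
      intro p hp
      exact hdepE p hp x y hxy
    simp only [this]
  refine ⟨fun x => ¬ ((H.card : ℝ) / 2 ≤ ((H.filter (fun i => E i x)).card : ℝ)), hdep.not, ?_, ?_⟩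
  · intro y hy
    replace hy := not_le.1 hy
    have h3 : (H.filter (fun p => E p y)).card + (good a R H y).card = H.card := by
      unfold good
      rw [add_comm]
      have h5 := Finset.card_filter_add_card_filter_not (s := H) (fun p => ∀ i, clean a R y (p.2 i))
      rw [← h5]
    have h4 : ((H.filter (fun p => E p y)).card : ℝ) + ((good a R H y).card : ℝ) = H.card := by
      exact_mod_cast h3
    have h5 : (H.card : ℝ) ≤ 2 * ((good a R H y).card : ℝ) := by linarith
    exact_mod_cast h5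
  · rw [Pr_not hP hdep]
    have h1 : (H.card : ℝ) / 2 * Pr μ ε (fun x => (H.card : ℝ) / 2 ≤
        ((H.filter (fun i => E i x)).card : ℝ)) ≤ H.card * (k * (2 * η * B)) := by
      refine le_trans (le_of_eq ?_) (hM.trans hsum)
      congr!
    have h2 : Pr μ ε (fun x => (H.card : ℝ) / 2 ≤ ((H.filter (fun i => E i x)).card : ℝ)) ≤ 1 / 2 := by
      by_contra hcon
      replace hcon := not_le.1 hcon
      have h3 : (H.card : ℝ) * (8 * k * η * B) ≤ H.card * 1 := mul_le_mul_of_nonneg_left hη hcard.le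
      have h4 : (H.card : ℝ) / 2 * (1 / 2) < (H.card : ℝ) / 2 *
        Pr μ ε (fun x => (H.card : ℝ) / 2 ≤ ((H.filter (fun i => E i x)).card : ℝ)) :=
        mul_lt_mul_of_pos_left hcon (by positivity)
      nlinarith
    linarith

/-- averaging over the targets -/
lemma avg (hP : Pert μ w B ε) (G0 : Finset ℕ) (V : ℕ → Finset ℕ) (z L : ℕ)
    (h1 : ∀ n ∈ G0, ∀ u ∈ V n, z ≤ a n + u) (h2 : ∀ n ∈ G0, ∀ u ∈ V n, a n + u + w n ≤ z + L) :
    ∃ m, ((∑ n ∈ G0, (V n).card : ℕ) : ℝ) ≤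
      (L + 1) * ∑ n ∈ G0, Pr μ ε (fun x => ∃ u ∈ V n, a n + x n + u = m) := by
  classical
  have key : ∀ n ∈ G0, ∑ m ∈ Finset.Icc z (z + L),
      Pr μ ε (fun x => ∃ u ∈ V n, a n + x n + u = m) = (V n).card := by
    intro n hn
    have h3 : ∀ m, Pr μ ε (fun x => ∃ u ∈ V n, a n + x n + u = m) =
        ∑ u ∈ V n, Pr μ ε (fun x => a n + x n + u = m) := by
      intro m
      apply Pr_exists_eq _ _ hP (S := {n}) (fun u _ => DepOn.coord (fun c => a n + c + u = m))
      intro u _ v _ huv x h4 h5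
      apply huv
      omega
    rw [Finset.sum_congr rfl (fun m _ => h3 m), Finset.sum_comm]
    have h4 : ∀ u ∈ V n, ∑ m ∈ Finset.Icc z (z + L), Pr μ ε (fun x => a n + x n + u = m) = 1 := by
      intro u hu
      rw [← Pr_exists_eq _ _ hP (S := {n}) (fun m _ => DepOn.coord (fun c => a n + c + u = m))
        (fun m _ m' _ hmm x h5 h6 => hmm (h5.symm.trans h6))]
      apply Pr_true hP
      intro x hx
      refine ⟨a n + x n + u, ?_, rfl⟩
      rw [Finset.mem_Icc]
      have h5 := h1 n hn u hu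
      have h6 := h2 n hn u hu
      have h7 := hx n
      constructor <;> omega
    rw [Finset.sum_congr rfl h4, Finset.sum_const, nsmul_eq_mul, mul_one]
  have htot : ∑ m ∈ Finset.Icc z (z + L), ∑ n ∈ G0,
      Pr μ ε (fun x => ∃ u ∈ V n, a n + x n + u = m) = ((∑ n ∈ G0, (V n).card : ℕ) : ℝ) := by
    rw [Finset.sum_comm, Finset.sum_congr rfl key]
    push_cast
    rfl
  by_contra hcon
  push Not at hcon
  have h5 : ∑ m ∈ Finset.Icc z (z + L), (L + 1 : ℝ) * ∑ n ∈ G0,
      Pr μ ε (fun x => ∃ u ∈ V n, a n + x n + u = m) <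
      ∑ _m ∈ Finset.Icc z (z + L), ((∑ n ∈ G0, (V n).card : ℕ) : ℝ) := by
    apply Finset.sum_lt_sum_of_nonempty
    · exact ⟨z, Finset.mem_Icc.2 ⟨le_refl _, Nat.le_add_right _ _⟩⟩
    · intro m _
      exact hcon m
  rw [← Finset.mul_sum, htot, Finset.sum_const, Nat.card_Icc, nsmul_eq_mul] at h5
  have h6 : ((z + L + 1 - z : ℕ) : ℝ) = L + 1 := by
    have : z + L + 1 - z = L + 1 := by omega
    rw [this]
    push_cast
    rfl
  rw [h6] at h5
  exact lt_irrefl _ h5

/-- many distinct shifted values hitting their targets -/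
lemma many_hits (hP : Pert μ w B ε) (hb : Block w J W ρ) {η : ℝ} (hη0 : 0 ≤ η)
    (hs : Sparse a J W ρ η) {G0 : Finset ℕ} (hG : G0 ⊆ J) (T : ℕ → ℕ → Prop) {β : ℝ}
    (h0 : 0 ≤ β) (h1 : β ≤ 1) (K : ℕ) (F : ℕ → Finset ℕ) (hF : ∀ i < K, F i ⊆ G0)
    (hd : ∀ i < K, ∀ j < K, i ≠ j → Disjoint (F i) (F j))
    (hβ : ∀ i < K, β ≤ ∑ n ∈ F i, Pr μ ε (fun x => T n (x n)) ∧
      ∑ n ∈ F i, Pr μ ε (fun x => T n (x n)) ≤ 2 * β) :
    (β / 2) ^ K - 4 * K * β * η * B ≤ Pr μ ε (fun x => ∃ V : Finset ℕ, V.card = K ∧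
      ∀ v ∈ V, ∃ n ∈ G0, v = a n + x n ∧ T n (x n)) := by
  classical
  have hB := one_le_B hP
  have hA := Pr_groups hP F K hd T h0 h1 (fun i hi => (hβ i hi).1)
  have hC : Pr μ ε (fun x => ∃ i ∈ range K, ∃ n ∈ F i, ∃ n' ∈ G0, n' ≠ n ∧
      a n + x n = a n' + x n' ∧ T n (x n)) ≤ 4 * K * β * η * B := by
    refine (Pr_exists_le _ _ hP).trans ?_
    calc ∑ i ∈ range K, Pr μ ε (fun x => ∃ n ∈ F i, ∃ n' ∈ G0, n' ≠ n ∧
          a n + x n = a n' + x n' ∧ T n (x n))
        ≤ ∑ _i ∈ range K, (2 * η * B * (2 * β)) := by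
          apply Finset.sum_le_sum
          intro i hi
          rw [Finset.mem_range] at hi
          refine (Pr_exists_le _ _ hP).trans ?_
          calc ∑ n ∈ F i, Pr μ ε (fun x => ∃ n' ∈ G0, n' ≠ n ∧
                a n + x n = a n' + x n' ∧ T n (x n))
              ≤ ∑ n ∈ F i, 2 * η * B * Pr μ ε (fun x => T n (x n)) := by
                apply Finset.sum_le_sum
                intro n hn
                exact coinc_sum hP hb hs (hG (hF i hi hn)) G0 hG (T n)
            _ = 2 * η * B * ∑ n ∈ F i, Pr μ ε (fun x => T n (x n)) := by rw [Finset.mul_sum]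
            _ ≤ 2 * η * B * (2 * β) :=
                mul_le_mul_of_nonneg_left (hβ i hi).2 (by positivity)
      _ = 4 * K * β * η * B := by
          rw [Finset.sum_const, Finset.card_range, nsmul_eq_mul]
          ring
  have hkey : Pr μ ε (fun x => ∀ i < K, ∃ n ∈ F i, T n (x n)) ≤
      Pr μ ε (fun x => (∃ V : Finset ℕ, V.card = K ∧
        ∀ v ∈ V, ∃ n ∈ G0, v = a n + x n ∧ T n (x n)) ∨ ∃ i ∈ range K, ∃ n ∈ F i, ∃ n' ∈ G0,
          n' ≠ n ∧ a n + x n = a n' + x n' ∧ T n (x n)) := by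
    apply Pr_mono hP
    intro x _ hx
    by_cases hc : ∃ i ∈ range K, ∃ n ∈ F i, ∃ n' ∈ G0,
          n' ≠ n ∧ a n + x n = a n' + x n' ∧ T n (x n)
    · exact Or.inr hc
    · left
      push Not at hc
      choose! ν hν1 hν2 using hx
      refine ⟨(range K).image (fun i => a (ν i) + x (ν i)), ?_, ?_⟩
      · rw [Finset.card_image_of_injOn, Finset.card_range]
        intro i hi j hj hij
        rw [Finset.mem_coe, Finset.mem_range] at hi hj
        by_contra hne
        have hd1 := hd i hi j hj hne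
        have hne2 : ν j ≠ ν i := by
          intro h
          rw [Finset.disjoint_left] at hd1
          exact hd1 (hν1 i hi) (h ▸ hν1 j hj)
        exact hc i (Finset.mem_range.2 hi) (ν i) (hν1 i hi) (ν j) (hF j hj (hν1 j hj)) hne2 hij
          (hν2 i hi)
      · intro v hv
        rw [Finset.mem_image] at hv
        obtain ⟨i, hi, rfl⟩ := hv
        rw [Finset.mem_range] at hi
        exact ⟨ν i, hF i hi (hν1 i hi), rfl, hν2 i hi⟩
  have hor := Pr_or_le hP (fun x => ∃ V : Finset ℕ, V.card = K ∧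
        ∀ v ∈ V, ∃ n ∈ G0, v = a n + x n ∧ T n (x n)) (fun x => ∃ i ∈ range K, ∃ n ∈ F i, ∃ n' ∈ G0,
          n' ≠ n ∧ a n + x n = a n' + x n' ∧ T n (x n))
  linarith

end Pool.Agent.W167.ET
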