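import Pool.Agent.W167.ET.Base

set_option autoImplicit false

/-! Elementary inequalities for the probability operator `Pr`. -/

namespace Pool.Agent.W167.ET

open MeasureTheory ProbabilityTheory Finset

variable {Ω : Type*} [MeasurableSpace Ω] {μ : Measure Ω} {w : ℕ → ℕ} {B : ℝ} {ε : ℕ → Ω → ℕ}

lemma DepOn.coord {n : ℕ} (p : ℕ → Prop) : DepOn {n} (fun x => p (x n)) := by
  intro x y h
  change p (x n) ↔ p (y n)
  rw [h n (Finset.mem_singleton_self n)]

lemma DepOn.coord' {S : Finset ℕ} {n : ℕ} (hn : n ∈ S) (p : ℕ → Prop) :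
    DepOn S (fun x => p (x n)) := (DepOn.coord p).mono (Finset.singleton_subset_iff.2 hn)

lemma DepOn.coord2 {S : Finset ℕ} {n m : ℕ} (hn : n ∈ S) (hm : m ∈ S) (p : ℕ → ℕ → Prop) :
    DepOn S (fun x => p (x n) (x m)) := by
  intro x y h
  change p (x n) (x m) ↔ p (y n) (y m)
  rw [h n hn, h m hm]

lemma Pr_dens (hP : Pert μ w B ε) (n j : ℕ) : Pr μ ε (fun x => x n = j) ≤ B / (w n + 1) :=
  hP.dens n j

open Classical in
/-- law of one coordinate -/
lemma Pr_coord (hP : Pert μ w B ε) (n : ℕ) (T : ℕ → Prop) (L : ℕ) (hL : w n < L) :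
    Pr μ ε (fun x => T (x n)) = ∑ j ∈ (range L).filter T, Pr μ ε (fun x => x n = j) := by
  rw [← Pr_exists_eq _ _ hP (S := {n}) (fun i _ => DepOn.coord (fun a => a = i))
    (fun i _ j _ hij x h1 h2 => hij (h1.symm.trans h2))]
  apply Pr_congr hP
  intro x hx
  constructor
  · intro h
    exact ⟨x n, Finset.mem_filter.2 ⟨Finset.mem_range.2 (lt_of_le_of_lt (hx n) hL), h⟩, rfl⟩
  · rintro ⟨j, hj, h⟩
    rw [Finset.mem_filter] at hj
    rw [h]
    exact hj.2

lemma Pr_sum_one (hP : Pert μ w B ε) (n L : ℕ) (hL : w n < L) :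
    ∑ j ∈ range L, Pr μ ε (fun x => x n = j) = 1 := by
  have h := Pr_coord hP n (fun _ => True) L hL
  rw [Pr_true hP (fun _ _ => trivial)] at h
  rw [h]
  apply Finset.sum_congr _ (fun _ _ => rfl)
  ext j
  simp

/-- coincidence of two shifted values, the first being in `T` -/
lemma Pr_coinc (hP : Pert μ w B ε) (hB : 0 ≤ B) {n n' : ℕ} (hn : n ≠ n') (a b : ℕ)
    (T : ℕ → Prop) :
    Pr μ ε (fun x => a + x n = b + x n' ∧ T (x n)) ≤
      Pr μ ε (fun x => T (x n)) * (B / (w n' + 1)) := by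
  classical
  rw [Pr_coord hP n T (w n + 1) (Nat.lt_succ_self _), Finset.sum_mul]
  have h1 : Pr μ ε (fun x => a + x n = b + x n' ∧ T (x n)) ≤
      Pr μ ε (fun x => ∃ j ∈ (range (w n + 1)).filter T, x n = j ∧ b + x n' = a + j) := by
    apply Pr_mono hP
    rintro x hx ⟨h1, h2⟩
    exact ⟨x n, Finset.mem_filter.2 ⟨Finset.mem_range.2 (Nat.lt_succ_of_le (hx n)), h2⟩, rfl,
      h1.symm⟩
  refine h1.trans ((Pr_exists_le _ _ hP).trans (Finset.sum_le_sum fun j _ => ?_))
  rw [Pr_and hP (S := {n}) (T := {n'}) (by simpa using hn) (DepOn.coord (fun c => c = j))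
    (DepOn.coord (fun c => b + c = a + j))]
  apply mul_le_mul_of_nonneg_left _ (Pr_nonneg _)
  by_cases hb : b ≤ a + j
  · refine (Pr_mono hP fun x _ h => ?_).trans (Pr_dens hP n' (a + j - b))
    change b + x n' = a + j at h
    omega
  · refine le_trans (le_of_eq ?_) (div_nonneg hB (by positivity))
    have := hP.prob
    have e : {ω | b + ε n' ω = a + j} = ∅ := by
      ext ω
      simp only [Set.mem_ofPred_eq, Set.mem_empty_iff_false, iff_false]
      omega
    unfold Pr
    rw [e]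
    exact measureReal_empty

open Classical in
/-- Markov inequality for the number of events which occur -/
lemma Pr_markov {ι : Type*} (hP : Pert μ w B ε) {S : Finset ℕ} (s : Finset ι)
    (E : ι → (ℕ → ℕ) → Prop) (hE : ∀ i ∈ s, DepOn S (E i)) (t : ℝ) :
    t * Pr μ ε (fun x => t ≤ ((s.filter (fun i => E i x)).card : ℝ)) ≤ ∑ i ∈ s, Pr μ ε (E i) := by
  have := hP.prob
  have hm : ∀ i ∈ s, MeasurableSet {ω | E i (fun n => ε n ω)} := fun i hi =>
    (hE i hi).measurableSet hP.meas
  set f : Ω → ℝ := fun ω => ∑ i ∈ s, Set.indicator {ω | E i (fun n => ε n ω)} (fun _ => (1 : ℝ)) ω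
    with hf
  have hfi : ∀ i ∈ s, Integrable (Set.indicator {ω | E i (fun n => ε n ω)} (fun _ => (1 : ℝ))) μ :=
    fun i hi => (integrable_const (1 : ℝ)).indicator (hm i hi)
  have h0 : 0 ≤ f := fun ω => Finset.sum_nonneg fun i _ =>
    Set.indicator_nonneg (fun _ _ => zero_le_one) ω
  have h1 := mul_meas_ge_le_integral_of_nonneg (μ := μ) (f := f) (Filter.Eventually.of_forall h0)
    (integrable_finsetSum _ hfi) t
  have h2 : ∫ ω, f ω ∂μ = ∑ i ∈ s, Pr μ ε (E i) := by
    rw [hf, integral_finsetSum _ hfi]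
    apply Finset.sum_congr rfl
    intro i hi
    rw [integral_indicator (hm i hi)]
    simp [Pr]
  have h3 : {ω | t ≤ ((s.filter (fun i => E i (fun n => ε n ω))).card : ℝ)} = {ω | t ≤ f ω} := by
    ext ω
    simp only [Set.mem_ofPred_eq, hf, Set.indicator_apply]
    rw [Finset.card_filter]
    push_cast
    rfl
  rw [← h2]
  unfold Pr
  rw [h3]
  exact h1

lemma Pr_forall_not (hP : Pert μ w B ε) (F : Finset ℕ) (T : ℕ → ℕ → Prop) :
    Pr μ ε (fun x => ∀ n ∈ F, ¬ T n (x n)) = ∏ n ∈ F, (1 - Pr μ ε (fun x => T n (x n))) := by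
  classical
  induction F using Finset.induction_on with
  | empty =>
    simp only [Finset.notMem_empty, false_implies, implies_true, Finset.prod_empty]
    exact Pr_true hP fun _ _ => trivial
  | insert m F hm ih =>
    rw [Finset.prod_insert hm, ← ih, ← Pr_not hP (DepOn.coord (fun c => T m c)),
      ← Pr_and hP (S := {m}) (T := F) (by simpa using hm) (DepOn.coord (fun c => ¬ T m c))]
    · apply Pr_congr hP
      intro x _
      simp
    · exact DepOn.all fun n => DepOn.all fun hn => DepOn.coord' hn (fun c => ¬ T n c)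

/-- the probability that some coordinate of `F` hits its target -/
lemma Pr_hit (hP : Pert μ w B ε) (F : Finset ℕ) (T : ℕ → ℕ → Prop) {β : ℝ} (h0 : 0 ≤ β)
    (h1 : β ≤ 1) (hβ : β ≤ ∑ n ∈ F, Pr μ ε (fun x => T n (x n))) :
    β / 2 ≤ Pr μ ε (fun x => ∃ n ∈ F, T n (x n)) := by
  classical
  have hdep : DepOn F (fun x => ∀ n ∈ F, ¬ T n (x n)) :=
    DepOn.all fun n => DepOn.all fun hn => DepOn.coord' hn (fun c => ¬ T n c)
  have e : Pr μ ε (fun x => ∃ n ∈ F, T n (x n)) = 1 - ∏ n ∈ F, (1 - Pr μ ε (fun x => T n (x n))) := by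
    rw [← Pr_forall_not hP F T, ← Pr_not hP hdep]
    apply Pr_congr hP
    intro x _
    simp
  have h2 : ∏ n ∈ F, (1 - Pr μ ε (fun x => T n (x n))) ≤ Real.exp (-β) := by
    calc ∏ n ∈ F, (1 - Pr μ ε (fun x => T n (x n)))
        ≤ ∏ n ∈ F, Real.exp (-(Pr μ ε (fun x => T n (x n)))) := by
          apply Finset.prod_le_prod
          · intro n _
            have := Pr_le_one hP (fun x => T n (x n))
            linarith
          · intro n _
            have := Real.add_one_le_exp (-(Pr μ ε (fun x => T n (x n))))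
            linarith
      _ = Real.exp (-∑ n ∈ F, Pr μ ε (fun x => T n (x n))) := by
          rw [← Real.exp_sum, Finset.sum_neg_distrib]
      _ ≤ _ := Real.exp_le_exp.2 (by linarith)
  have h3 : Real.exp (-β) ≤ 1 - β / 2 := by
    have h4 : Real.exp (-β) ≤ 1 / (1 + β) := by
      rw [Real.exp_neg, ← one_div]
      apply one_div_le_one_div_of_le (by linarith)
      have := Real.add_one_le_exp β
      linarith
    refine h4.trans ?_
    rw [div_le_iff₀ (by linarith)]
    nlinarith
  rw [e]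
  linarith

/-- independent groups of coordinates -/
lemma Pr_groups (hP : Pert μ w B ε) (F : ℕ → Finset ℕ) (K : ℕ)
    (hF : ∀ i < K, ∀ j < K, i ≠ j → Disjoint (F i) (F j)) (T : ℕ → ℕ → Prop) {β : ℝ}
    (h0 : 0 ≤ β) (h1 : β ≤ 1) (hβ : ∀ i < K, β ≤ ∑ n ∈ F i, Pr μ ε (fun x => T n (x n))) :
    (β / 2) ^ K ≤ Pr μ ε (fun x => ∀ i < K, ∃ n ∈ F i, T n (x n)) := by
  classical
  induction K with
  | zero =>
    rw [Pr_true hP (fun _ _ i hi => absurd hi (Nat.not_lt_zero i))]
    simp
  | succ K ih =>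
    have ih' := ih (fun i hi j hj => hF i (by omega) j (by omega)) (fun i hi => hβ i (by omega))
    have hd : Disjoint ((range K).biUnion F) (F K) := by
      rw [Finset.disjoint_biUnion_left]
      intro i hi
      rw [Finset.mem_range] at hi
      exact hF i (by omega) K (by omega) (by omega)
    have h2 := Pr_and hP hd (E := fun x => ∀ i < K, ∃ n ∈ F i, T n (x n))
      (F := fun x => ∃ n ∈ F K, T n (x n))
      (DepOn.all fun i => DepOn.all fun hi => DepOn.ex fun n => by
        intro x y hxy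
        change (n ∈ F i ∧ T n (x n)) ↔ (n ∈ F i ∧ T n (y n))
        by_cases hn : n ∈ F i
        · rw [hxy n (Finset.mem_biUnion.2 ⟨i, Finset.mem_range.2 hi, hn⟩)]
        · simp [hn])
      (DepOn.ex fun n => by
        intro x y hxy
        change (n ∈ F K ∧ T n (x n)) ↔ (n ∈ F K ∧ T n (y n))
        by_cases hn : n ∈ F K
        · rw [hxy n hn]
        · simp [hn])
    have e : Pr μ ε (fun x => ∀ i < K + 1, ∃ n ∈ F i, T n (x n)) =
        Pr μ ε (fun x => (∀ i < K, ∃ n ∈ F i, T n (x n)) ∧ ∃ n ∈ F K, T n (x n)) := by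
      apply Pr_congr hP
      intro x _
      constructor
      · intro h
        exact ⟨fun i hi => h i (by omega), h K (by omega)⟩
      · rintro ⟨h3, h4⟩ i hi
        rcases Nat.lt_succ_iff_lt_or_eq.1 hi with h5 | h5
        · exact h3 i h5
        · rw [h5]; exact h4
    rw [e, h2, pow_succ]
    exact mul_le_mul ih' (Pr_hit hP (F K) T h0 h1 (hβ K (by omega))) (by positivity)
      (Pr_nonneg _)

end Pool.Agent.W167.ET
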