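import Pool.Agent.W167.ET.Pieces

set_option autoImplicit false

/-! The sparse step. -/

namespace Pool.Agent.W167.ET

open MeasureTheory ProbabilityTheory Finset

variable {Ω : Type*} [MeasurableSpace Ω] {μ : Measure Ω} {w : ℕ → ℕ} {B : ℝ} {ε : ℕ → Ω → ℕ}
  {a : ℕ → ℕ} {J : Finset ℕ} {W ρ : ℕ}

/-- few tuples with a given first index and the sum of the rest in a window -/
def Thin {k : ℕ} (a : ℕ → ℕ) (H : Finset (ℕ × (Fin k → ℕ))) (W ρ : ℕ) (η : ℝ) : Prop :=
  ∀ n z, ((H.filter (fun p => p.1 = n ∧ z ≤ ∑ i, a (p.2 i) ∧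
    ∑ i, a (p.2 i) ≤ z + (k + 1) * (ρ * W))).card : ℝ) ≤ η * W

lemma vsum_eq {k : ℕ} (a y : ℕ → ℕ) (t : Fin k → ℕ) :
    vsum a y t = ∑ i, a (t i) + ∑ i, y (t i) := by
  unfold vsum
  rw [Finset.sum_add_distrib]

lemma sum_shift_le {k : ℕ} (hb : Block w J W ρ) {y : ℕ → ℕ} (hy : ∀ n, y n ≤ w n)
    (t : Fin k → ℕ) (ht : ∀ i, t i ∈ J) : ∑ i, y (t i) ≤ k * (ρ * W) := by
  calc ∑ i, y (t i) ≤ ∑ _i : Fin k, ρ * W :=
        Finset.sum_le_sum fun i _ => (hy _).trans (hb.hi _ (ht i))
    _ = k * (ρ * W) := by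
        rw [Finset.sum_const, Finset.card_univ, Fintype.card_fin, smul_eq_mul]

/-- single indices have a small chance to hit the target -/
lemma hit_le {k : ℕ} (hP : Pert μ w B ε) (hb : Block w J W ρ) {η : ℝ}
    {R G0 : Finset ℕ} (hG : G0 ⊆ J) (hR : R ⊆ J) (H : Finset (ℕ × (Fin k → ℕ)))
    (hH : ∀ p ∈ H, p.1 ∈ G0 ∧ ∀ i, p.2 i ∈ R) (hT : Thin a H W ρ η) {y : ℕ → ℕ}
    (hy : ∀ n, y n ≤ w n) {n : ℕ} (hn : n ∈ G0) (m : ℕ) :
    Pr μ ε (fun x => ∃ u ∈ U a R H y n, a n + x n + u = m) ≤ η * B := by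
  classical
  have hB := one_le_B hP
  set U' := (U a R H y n).filter (fun u => a n + u ≤ m ∧ m ≤ a n + u + w n) with hU'
  have h1 : Pr μ ε (fun x => ∃ u ∈ U a R H y n, a n + x n + u = m) ≤
      Pr μ ε (fun x => ∃ u ∈ U', x n = m - (a n + u)) := by
    apply Pr_mono hP
    rintro x hx ⟨u, hu, h2⟩
    have h3 := hx n
    refine ⟨u, ?_, by omega⟩
    rw [hU', Finset.mem_filter]
    exact ⟨hu, by omega, by omega⟩
  have hcard : (U'.card : ℝ) ≤ η * W := by
    refine le_trans ?_ (hT n (m - a n - (k + 1) * (ρ * W)))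
    have h2 : U' ⊆ (H.filter (fun p => p.1 = n ∧ m - a n - (k + 1) * (ρ * W) ≤ ∑ i, a (p.2 i) ∧
      ∑ i, a (p.2 i) ≤ m - a n - (k + 1) * (ρ * W) + (k + 1) * (ρ * W))).image
        (fun p => vsum a y p.2) := by
      intro u hu
      rw [hU', Finset.mem_filter, mem_U] at hu
      obtain ⟨⟨t, ht, _, rfl⟩, h3, h4⟩ := hu
      rw [Finset.mem_image]
      refine ⟨(n, t), ?_, rfl⟩
      rw [Finset.mem_filter]
      have h5 := sum_shift_le hb hy t (fun i => hR ((hH _ ht).2 i))
      have h6 := hb.hi n (hG hn)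
      rw [vsum_eq] at h3 h4
      refine ⟨ht, rfl, ?_, ?_⟩
      · show m - a n - (k + 1) * (ρ * W) ≤ ∑ i, a (t i)
        have h7 : (k + 1) * (ρ * W) = k * (ρ * W) + ρ * W := by ring
        omega
      · show ∑ i, a (t i) ≤ m - a n - (k + 1) * (ρ * W) + (k + 1) * (ρ * W)
        omega
    exact_mod_cast (Finset.card_le_card h2).trans Finset.card_image_le
  have hW1 : (1 : ℝ) ≤ W := by exact_mod_cast hb.one
  have hη : 0 ≤ η := by
    have h2 : 0 ≤ η * W := le_trans (Nat.cast_nonneg _) hcard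
    by_contra hcon
    push Not at hcon
    nlinarith
  refine h1.trans ((Pr_exists_le _ _ hP).trans ?_)
  calc ∑ u ∈ U', Pr μ ε (fun x => x n = m - (a n + u)) ≤ ∑ _u ∈ U', B / (W + 1) := by
        apply Finset.sum_le_sum
        intro u _
        exact (Pr_dens hP n _).trans (dens_block hP hb (hG hn))
    _ = (U'.card : ℝ) * (B / (W + 1)) := by rw [Finset.sum_const, nsmul_eq_mul]
    _ ≤ (η * W) * (B / (W + 1)) := mul_le_mul_of_nonneg_right hcard (by positivity)
    _ ≤ η * B := by
        rw [mul_div_assoc', div_le_iff₀ (by positivity)]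
        have : 0 ≤ η * B := by positivity
        nlinarith

/-- **The sparse step.** -/
lemma sparse_step (hP : Pert μ w B ε) (k c ρ K : ℕ) (hK : 1 ≤ K) {κ : ℝ}
    (hκ : 0 < κ) :
    ∃ η > 0, ∃ p > 0, ∀ (W : ℕ) (J : Finset ℕ), Block w J W ρ → ∀ (G0 : Finset ℕ) (z : ℕ)
      (H : Finset (ℕ × (Fin k → ℕ))), G0 ⊆ J → (∀ q ∈ H, q.1 ∈ G0 ∧ ∀ i, q.2 i ∈ J \ G0) →
      (∀ q ∈ H, z ≤ a q.1 + ∑ i, a (q.2 i) ∧ a q.1 + ∑ i, a (q.2 i) ≤ z + c * W) →
      Sparse a J W ρ η → Thin a H W ρ η → κ * W ≤ H.card → J.Nonempty →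
      p ≤ Pr μ ε (Many a J (k + 1) K) := by
  classical
  have hB := one_le_B hP
  -- constants
  set M : ℝ := ((k ^ k * K : ℕ) : ℝ) with hM
  have hkk : 0 < k ^ k * K := by
    rcases Nat.eq_zero_or_pos k with rfl | hk
    · have h0 : 0 < K := hK
      simpa using h0
    · exact Nat.mul_pos (Nat.pow_pos hk) hK
  have hM0 : 0 < M := by
    rw [hM]
    exact_mod_cast hkk
  set D : ℝ := c + (k + 1) * ρ + 1 with hD
  have hD0 : 0 < D := by rw [hD]; positivity
  set κ' : ℝ := κ / (2 * M) / D with hκ'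
  have hκ'0 : 0 < κ' := by rw [hκ']; positivity
  set K' : ℕ := (k + 1) * K with hK'
  have hK'0 : 0 < K' := Nat.mul_pos (Nat.succ_pos k) hK
  have hK'r : (0 : ℝ) < K' := by exact_mod_cast hK'0
  set β : ℝ := min (κ' / (2 * K')) 1 with hβ
  have hβ0 : 0 < β := lt_min (by positivity) one_pos
  have hβ1 : β ≤ 1 := min_le_right _ _
  have hβ2 : 2 * K' * β ≤ κ' := by
    have h1 : β ≤ κ' / (2 * K') := min_le_left _ _
    rw [le_div_iff₀ (by positivity)] at h1
    linarith
  set η : ℝ := min (1 / (8 * (k + 1) * B)) (min (β / B) ((β / 2) ^ K' / (8 * K' * β * B))) with hη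
  have hη0 : 0 < η := by
    rw [hη]
    refine lt_min (by positivity) (lt_min (by positivity) (by positivity))
  have hη1 : 8 * k * η * B ≤ 1 := by
    have h1 : η ≤ 1 / (8 * (k + 1) * B) := min_le_left _ _
    rw [le_div_iff₀ (by positivity)] at h1
    have h2 : 0 ≤ η * B := by positivity
    nlinarith
  have hη2 : η * B ≤ β := by
    have h1 : η ≤ β / B := (min_le_right _ _).trans (min_le_left _ _)
    rwa [le_div_iff₀ (by linarith)] at h1
  have hη3 : 4 * K' * β * η * B ≤ (β / 2) ^ K' / 2 := by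
    have h1 : η ≤ (β / 2) ^ K' / (8 * K' * β * B) := (min_le_right _ _).trans (min_le_right _ _)
    rw [le_div_iff₀ (by positivity)] at h1
    linarith
  refine ⟨η, hη0, (β / 2) ^ K' / 4, by positivity, ?_⟩
  intro W J hb G0 z H hG hH hz hS hT hcard hne
  have hW1 : (1 : ℝ) ≤ W := by exact_mod_cast hb.one
  have hR : J \ G0 ⊆ J := Finset.sdiff_subset
  obtain ⟨Y, hY1, hY2, hY3⟩ := Pr_good hP hb hS hR H (fun q hq => (hH q hq).2) hη1
  have hdis : Disjoint G0 (J \ G0) := Finset.disjoint_sdiff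
  have huni : G0 ∪ (J \ G0) = J := Finset.union_sdiff_of_subset hG
  have hdep : DepOn (G0 ∪ (J \ G0)) (Many a J (k + 1) K) := by
    rw [huni]
    exact dep_Many a J (k + 1) K
  have hfr := Pr_freeze hP hdis hdep hY1 (p := (β / 2) ^ K' / 2) (by positivity) (by
    intro y hy hYy
    have hgood := hY2 y hYy
    -- the values of `R` are not changed by gluing
    have hsub : ∀ x : ℕ → ℕ, Img a (J \ G0) y ⊆ Img a J (glue (J \ G0) y x) := by
      rintro x v ⟨j, hj, rfl⟩
      refine ⟨j, hR hj, ?_⟩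
      unfold glue
      rw [if_pos hj]
    by_cases hmult : ∃ m, K ≤ r (Img a (J \ G0) y) k m
    · -- high multiplicity
      obtain ⟨m, hm⟩ := hmult
      rw [Pr_true hP]
      · have h1 : (β / 2) ^ K' ≤ 1 := pow_le_one₀ (by positivity) (by linarith)
        linarith
      · intro x _
        apply Many_up hne (Nat.le_succ k)
        exact ⟨m, hm.trans (r_mono (hsub x) k m)⟩
    · push Not at hmult
      have hmul := mult a (J \ G0) G0 H y K hH (fun m => (hmult m).le)
      -- total number of link sums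
      have htot : κ * W / (2 * M) ≤ ((∑ n ∈ G0, (U a (J \ G0) H y n).card : ℕ) : ℝ) := by
        rw [div_le_iff₀ (by positivity)]
        have h1 : (H.card : ℝ) ≤ 2 * ((good a (J \ G0) H y).card : ℝ) := by exact_mod_cast hgood
        have h2 : ((good a (J \ G0) H y).card : ℝ) ≤
            M * ((∑ n ∈ G0, (U a (J \ G0) H y n).card : ℕ) : ℝ) := by
          rw [hM]
          exact_mod_cast hmul
        linarith
      have havg := avg (a := a) hP G0 (fun n => U a (J \ G0) H y n) z ((c + (k + 1) * ρ) * W)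
        (by
          intro n hn u hu
          rw [mem_U] at hu
          obtain ⟨t, ht, _, rfl⟩ := hu
          have h1 := (hz _ ht).1
          change z ≤ a n + ∑ i, a (t i) at h1
          rw [vsum_eq]
          omega)
        (by
          intro n hn u hu
          rw [mem_U] at hu
          obtain ⟨t, ht, _, rfl⟩ := hu
          have h1 := (hz _ ht).2
          change a n + ∑ i, a (t i) ≤ z + c * W at h1
          have h5 := sum_shift_le hb hy t (fun i => hR ((hH _ ht).2 i))
          have h6 := hb.hi n (hG hn)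
          rw [vsum_eq]
          have h7 : (c + (k + 1) * ρ) * W = c * W + k * (ρ * W) + ρ * W := by ring
          omega)
      obtain ⟨m, hm⟩ := havg
      set T : ℕ → ℕ → Prop := fun n j => ∃ u ∈ U a (J \ G0) H y n, a n + j + u = m with hTdef
      have hsumT : κ' ≤ ∑ n ∈ G0, Pr μ ε (fun x => T n (x n)) := by
        have h1 : κ * W / (2 * M) ≤ (D * W) * ∑ n ∈ G0, Pr μ ε (fun x => T n (x n)) := by
          refine htot.trans (hm.trans ?_)
          apply mul_le_mul_of_nonneg_right _ (Finset.sum_nonneg fun n _ => Pr_nonneg _)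
          rw [hD]
          push_cast
          nlinarith
        have h2 : κ / (2 * M) ≤ D * ∑ n ∈ G0, Pr μ ε (fun x => T n (x n)) := by
          have h3 : κ * W / (2 * M) = κ / (2 * M) * W := by ring
          rw [h3] at h1
          have h4 : (κ / (2 * M)) * W ≤ (D * ∑ n ∈ G0, Pr μ ε (fun x => T n (x n))) * W := by
            linarith
          exact le_of_mul_le_mul_right h4 (by linarith)
        rw [hκ', div_le_iff₀ hD0]
        linarith
      obtain ⟨F, hF1, hF2, hF3⟩ := exists_groups (fun n => Pr μ ε (fun x => T n (x n))) hβ0.le K' G0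
        (fun n _ => Pr_nonneg _)
        (fun n hn => (hit_le hP hb hG hR H hH hT hy hn m).trans hη2)
        (hβ2.trans hsumT)
      have hmany := many_hits hP hb hη0.le hS hG T hβ0.le hβ1 K' F hF1 hF2 hF3
      have hfin : Pr μ ε (fun x => ∃ V : Finset ℕ, V.card = K' ∧
          ∀ v ∈ V, ∃ n ∈ G0, v = a n + x n ∧ T n (x n)) ≤
          Pr μ ε (fun x => Many a J (k + 1) K (glue (J \ G0) y x)) := by
        apply Pr_mono hP
        rintro x _ ⟨V, hV1, hV2⟩
        refine ⟨m, ?_⟩
        have hex : ∀ v ∈ V, ∃ M : Multiset ℕ,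
            M ∈ msets (Img a J (glue (J \ G0) y x)) (k + 1) m ∧ v ∈ M := by
          intro v hv
          obtain ⟨n, hn, hv1, u, hu, hv2⟩ := hV2 v hv
          rw [mem_U] at hu
          obtain ⟨t, ht, _, hu2⟩ := hu
          refine ⟨v ::ₘ mset (fun i => a (t i) + y (t i)), ⟨?_, ?_, ?_⟩, Multiset.mem_cons_self _ _⟩
          · rw [Multiset.card_cons, card_mset]
          · intro v' hv'
            rw [Multiset.mem_cons] at hv'
            rcases hv' with rfl | hv'
            · refine ⟨n, hG hn, ?_⟩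
              unfold glue
              rw [if_neg]
              · exact hv1
              · rw [Finset.mem_sdiff]
                intro h
                exact h.2 hn
            · rw [mem_mset] at hv'
              obtain ⟨i, rfl⟩ := hv'
              exact hsub x ⟨t i, (hH _ ht).2 i, rfl⟩
          · rw [Multiset.sum_cons, sum_mset]
            have h1 : ∑ i, (a (t i) + y (t i)) = u := hu2
            rw [h1, hv1]
            exact hv2
        choose! f hf using hex
        have h1 := hits V f hf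
        rw [hV1, hK'] at h1
        exact Nat.le_of_mul_le_mul_left h1 (Nat.succ_pos k)
      linarith)
  have hpos : 0 ≤ (β / 2) ^ K' / 2 := by positivity
  have h1 : (β / 2) ^ K' / 2 * (1 / 2) ≤ (β / 2) ^ K' / 2 * Pr μ ε Y :=
    mul_le_mul_of_nonneg_left hY3 hpos
  linarith

end Pool.Agent.W167.ET
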