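import Pool.Agent.W167.ET.Induct

set_option autoImplicit false

/-! The product of the uniform measures. -/

namespace Pool.Agent.W167.ET

open MeasureTheory ProbabilityTheory Finset

/-- the product of the uniform probability measures on `{0, …, w n}` -/
noncomputable def unif (w : ℕ → ℕ) : Measure (∀ n, Fin (w n + 1)) :=
  Measure.infinitePi fun n => (PMF.uniformOfFintype (Fin (w n + 1))).toMeasure

lemma pert_unif (w : ℕ → ℕ) :
    Pert (unif w) w 1 (fun n (x : ∀ n, Fin (w n + 1)) => (x n : ℕ)) := by
  refine ⟨?_, ?_, ?_, ?_⟩
  · exact iIndepFun_infinitePi (P := fun n => (PMF.uniformOfFintype (Fin (w n + 1))).toMeasure)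
      (X := fun n (x : Fin (w n + 1)) => (x : ℕ)) (fun n => measurable_from_top)
  · intro n
    exact (measurable_from_top (f := fun x : Fin (w n + 1) => (x : ℕ))).comp (measurable_pi_apply n)
  · intro n x
    exact Nat.lt_succ_iff.1 (x n).2
  · intro n j
    have h1 : (unif w).map (fun x => x n) = (PMF.uniformOfFintype (Fin (w n + 1))).toMeasure :=
      (measurePreserving_eval_infinitePi _ n).map_eq
    have h2 : (unif w) {x : ∀ n, Fin (w n + 1) | (x n : ℕ) = j} =
        (PMF.uniformOfFintype (Fin (w n + 1))).toMeasure {y : Fin (w n + 1) | (y : ℕ) = j} := by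
      rw [← h1, Measure.map_apply (measurable_pi_apply n) MeasurableSet.of_discrete]
      rfl
    rw [Measure.real, h2]
    have h3 : {y : Fin (w n + 1) | (y : ℕ) = j} ⊆ if h : j < w n + 1 then {(⟨j, h⟩ : Fin (w n + 1))}
        else ∅ := by
      intro y hy
      have hy' : (y : ℕ) = j := hy
      have hj : j < w n + 1 := hy' ▸ y.2
      rw [dif_pos hj]
      exact Fin.ext hy'
    have hle : (PMF.uniformOfFintype (Fin (w n + 1))).toMeasure {y : Fin (w n + 1) | (y : ℕ) = j} ≤
        ENNReal.ofReal (1 / (w n + 1)) := by
      refine (measure_mono h3).trans ?_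
      split_ifs with h
      · rw [PMF.toMeasure_apply_singleton _ _ (measurableSet_singleton _),
          PMF.uniformOfFintype_apply, Fintype.card_fin, one_div,
          ENNReal.ofReal_inv_of_pos (by positivity)]
        apply le_of_eq
        congr 1
        rw [← Nat.cast_succ, ENNReal.ofReal_natCast]
      · simp
    exact ENNReal.toReal_le_of_le_ofReal (by positivity) hle

end Pool.Agent.W167.ET
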